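import Pool.Agent.X279.NK.Num

/-!
# The parity operator from the supertraces of the powers of one operator
-/

set_option autoImplicit false
set_option linter.unusedSectionVars false

open Polynomial

namespace Pool.Agent.X279.NK

theorem pow_split {R : Type*} [Ring R] {E O a b : R} (hE : E * E = E) (hO : O * O = O)
    (hEO : E * O = 0) (hOE : O * E = 0) (h1 : E + O = 1) (haE : a * E = E * a)
    (haO : a * O = O * a) (hbE : b * E = E * b) (hbO : b * O = O * b) (k : ℕ) :
    (a * E + b * O) ^ k = a ^ k * E + b ^ k * O := by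
  induction k with
  | zero => rw [pow_zero, pow_zero, pow_zero, one_mul, one_mul, h1]
  | succ k ih =>
    rw [pow_succ, ih, add_mul, mul_add, mul_add]
    have e1 : a ^ k * E * (a * E) = a ^ (k + 1) * E := by
      rw [haE, ← mul_assoc, mul_assoc (a ^ k) E E, hE, mul_assoc, ← haE, ← mul_assoc, ← pow_succ]
    have e2 : a ^ k * E * (b * O) = 0 := by
      rw [← mul_assoc, mul_assoc (a ^ k) E b, ← hbE, ← mul_assoc, mul_assoc _ E O, hEO, mul_zero]
    have e3 : b ^ k * O * (a * E) = 0 := by
      rw [← mul_assoc, mul_assoc (b ^ k) O a, ← haO, ← mul_assoc, mul_assoc _ O E, hOE, mul_zero]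
    have e4 : b ^ k * O * (b * O) = b ^ (k + 1) * O := by
      rw [hbO, ← mul_assoc, mul_assoc (b ^ k) O O, hO, mul_assoc, ← hbO, ← mul_assoc, ← pow_succ]
    rw [e1, e2, e3, e4, add_zero, zero_add]

section

variable {K V : Type*} [Field K] [CharZero K] [AddCommGroup V] [Module K V] [Module.Finite K V]
  {P : Module.End K V} {A : Set (Module.End K V)}

theorem aeval_pow_sub (w : Module.End K V) (c : K) (n : ℕ) :
    aeval w ((X - C c) ^ n) = (w - algebraMap K _ c) ^ n := by
  rw [map_pow, map_sub, aeval_X, aeval_C]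

theorem oddProj_idem (h : P * P = 1) : oddProj P * oddProj P = oddProj P := by
  rw [← one_sub_evenProj, mul_sub, sub_mul, sub_mul, one_mul, mul_one, evenProj_idem h]
  simp

theorem even_mul_odd (h : P * P = 1) : evenProj P * oddProj P = 0 := by
  rw [← one_sub_evenProj, mul_sub, mul_one, evenProj_idem h, sub_self]

theorem odd_mul_even (h : P * P = 1) : oddProj P * evenProj P = 0 := by
  rw [← one_sub_evenProj, sub_mul, one_mul, evenProj_idem h, sub_self]

theorem even_add_odd : evenProj P + oddProj P = 1 := by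
  rw [← one_sub_evenProj]; abel

theorem comm_even {w : Module.End K V} (hw : w * P = P * w) :
    w * evenProj P = evenProj P * w := by
  rw [evenProj, mul_smul_comm, smul_mul_assoc, mul_add, add_mul, hw, mul_one, one_mul]

theorem comm_odd {w : Module.End K V} (hw : w * P = P * w) :
    w * oddProj P = oddProj P * w := by
  rw [oddProj, mul_smul_comm, smul_mul_assoc, mul_sub, sub_mul, hw, mul_one, one_mul]

/-- The supertraces of the powers of `w` are those of the parity operator. -/
theorem nilp_of_supertraces (hP : P * P = 1) {w : Module.End K V} (hw : w * P = P * w)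
    (htr : ∀ k : ℕ, 1 ≤ k → k ≤ Module.finrank K V →
      LinearMap.trace K V (w ^ k * P) =
        (Module.finrank K (evenPart P) : K) - (-1) ^ k * Module.finrank K (oddPart P)) :
    (∀ x ∈ evenPart P, ((w - algebraMap K _ 1) ^ Module.finrank K V) x = 0) ∧
      (∀ x ∈ oddPart P, ((w - algebraMap K _ (-1)) ^ Module.finrank K V) x = 0) := by
  have hwE := comm_even hw
  have hwO := comm_odd hw
  set E := evenProj P with hE
  set O := oddProj P with hO
  have hEE : E * E = E := evenProj_idem hP
  have hOO : O * O = O := oddProj_idem hP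
  have hEO : E * O = 0 := even_mul_odd hP
  have hOE : O * E = 0 := odd_mul_even hP
  have hEO1 : E + O = 1 := even_add_odd
  have hPEO : P = E - O := parity_eq
  set T1 : Module.End K V := w * E + (-1) * O with hT1
  set T2 : Module.End K V := 1 * E + w * O with hT2
  have p1 : ∀ k, T1 ^ k = w ^ k * E + (-1) ^ k * O := fun k =>
    pow_split hEE hOO hEO hOE hEO1 hwE hwO (by simp) (by simp) k
  have p2 : ∀ k, T2 ^ k = 1 ^ k * E + w ^ k * O := fun k =>
    pow_split hEE hOO hEO hOE hEO1 (by simp) (by simp) hwE hwO k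
  have hcp : LinearMap.charpoly T1 = LinearMap.charpoly T2 := by
    apply end_charpoly_eq
    intro k hk1 hk2
    have h3 := htr k hk1 hk2
    rw [hPEO, mul_sub, map_sub] at h3
    rw [← hPEO] at h3
    rw [p1, p2, map_add, map_add, one_pow, one_mul]
    have h4 : LinearMap.trace K V ((-1) ^ k * O) = (-1) ^ k * LinearMap.trace K V O := by
      rcases Nat.even_or_odd k with hk | hk
      · rw [hk.neg_one_pow, hk.neg_one_pow, one_mul, one_mul]
      · rw [hk.neg_one_pow, hk.neg_one_pow, neg_one_mul, neg_one_mul, map_neg]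
    rw [h4, hE, hO, trace_evenProj hP, trace_oddProj hP, ← hE, ← hO]
    linear_combination h3
  have hT1e : ∀ x ∈ evenPart P, T1 x = w x := by
    intro x hx
    rw [hT1, LinearMap.add_apply, Module.End.mul_apply, Module.End.mul_apply, hE, hO,
      evenProj_even hx, oddProj_even hx, map_zero, add_zero]
  have hT1o : ∀ x ∈ oddPart P, T1 x = (-1 : K) • x := by
    intro x hx
    rw [hT1, LinearMap.add_apply, Module.End.mul_apply, Module.End.mul_apply, hE, hO,
      evenProj_odd hx, oddProj_odd hx, map_zero, zero_add, LinearMap.neg_apply,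
      Module.End.one_apply, neg_one_smul]
  have hT2e : ∀ x ∈ evenPart P, T2 x = (1 : K) • x := by
    intro x hx
    rw [hT2, LinearMap.add_apply, Module.End.mul_apply, Module.End.mul_apply, hE, hO,
      evenProj_even hx, oddProj_even hx, map_zero, add_zero, Module.End.one_apply, one_smul]
  have hT2o : ∀ x ∈ oddPart P, T2 x = w x := by
    intro x hx
    rw [hT2, LinearMap.add_apply, Module.End.mul_apply, Module.End.mul_apply, hE, hO,
      evenProj_odd hx, oddProj_odd hx, map_zero, zero_add]
  have hwe : ∀ x ∈ evenPart P, w x ∈ evenPart P := by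
    intro x hx
    rw [mem_evenPart] at hx ⊢
    rw [← Module.End.mul_apply, ← hw, Module.End.mul_apply, hx]
  have hwo : ∀ x ∈ oddPart P, w x ∈ oddPart P := by
    intro x hx
    rw [mem_oddPart] at hx ⊢
    rw [← Module.End.mul_apply, ← hw, Module.End.mul_apply, hx, map_neg]
  have hd1 : Module.finrank K (evenPart P) ≤ Module.finrank K (T1.maxGenEigenspace 1) := by
    rw [LinearMap.finrank_maxGenEigenspace_eq, hcp, ← LinearMap.finrank_maxGenEigenspace_eq]
    apply Submodule.finrank_mono
    intro x hx
    exact (Module.End.genEigenspace_le_maximal T2 1 1)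
      ((Module.End.mem_genEigenspace_one).2 (hT2e x hx))
  have hd2 : Module.finrank K (oddPart P) ≤ Module.finrank K (T2.maxGenEigenspace (-1)) := by
    rw [LinearMap.finrank_maxGenEigenspace_eq, ← hcp, ← LinearMap.finrank_maxGenEigenspace_eq]
    apply Submodule.finrank_mono
    intro x hx
    exact (Module.End.genEigenspace_le_maximal T1 (-1) 1)
      ((Module.End.mem_genEigenspace_one).2 (hT1o x hx))
  have g1 := gen_le (T := T1) (isCompl_parts hP) (fun x hx => by rw [hT1e x hx]; exact hwe x hx)
    hT1o (by norm_num : (-1 : K) ≠ 1) hd1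
  have g2 := gen_le (T := T2) (isCompl_parts hP).symm
    (fun x hx => by rw [hT2o x hx]; exact hwo x hx) hT2e (by norm_num : (1 : K) ≠ -1) hd2
  have agree : ∀ (U : Submodule K V) (T : Module.End K V) (c : K), (∀ x ∈ U, w x ∈ U) →
      (∀ x ∈ U, T x = w x) → ∀ n : ℕ, ∀ x ∈ U,
      ((w - algebraMap K _ c) ^ n) x = ((T - algebraMap K _ c) ^ n) x := by
    intro U T c hU hT n
    induction n with
    | zero => intro x _; simp
    | succ n ih =>
      intro x hx
      rw [pow_succ, pow_succ, Module.End.mul_apply, Module.End.mul_apply, LinearMap.sub_apply,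
        LinearMap.sub_apply, hT x hx]
      apply ih
      apply U.sub_mem (hU x hx)
      rw [Module.algebraMap_end_apply]
      exact U.smul_mem _ hx
  refine ⟨fun x hx => ?_, fun x hx => ?_⟩
  · rw [agree _ T1 1 hwe hT1e _ x hx]
    exact g1 x hx
  · rw [agree _ T2 (-1) hwo hT2o _ x hx]
    exact g2 x hx

theorem span_of_nilp (h : EvenRing P A) {w : Module.End K V} (hw : w ∈ Submodule.span K A)
    {n : ℕ} (h1 : ∀ x ∈ evenPart P, ((w - algebraMap K _ 1) ^ n) x = 0)
    (h2 : ∀ x ∈ oddPart P, ((w - algebraMap K _ (-1)) ^ n) x = 0) :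
    evenProj P ∈ Submodule.span K A := by
  have hco : IsCoprime ((X - C (1 : K)) ^ n) ((X - C (-1 : K)) ^ n) := by
    apply IsCoprime.pow
    apply isCoprime_X_sub_C_of_isUnit_sub
    rw [sub_neg_eq_add]
    exact IsUnit.mk0 _ (by norm_num)
  obtain ⟨u, v, huv⟩ := hco
  have key : aeval w (v * (X - C (-1 : K)) ^ n) = evenProj P := by
    apply eq_evenProj h.sq
    · intro x hx
      have e1 : aeval w (u * (X - C (1 : K)) ^ n + v * (X - C (-1 : K)) ^ n) x = x := by
        rw [huv, map_one, Module.End.one_apply]
      have e2 : aeval w (u * (X - C (1 : K)) ^ n) x = 0 := by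
        rw [map_mul, Module.End.mul_apply, aeval_pow_sub, h1 x hx, map_zero]
      rw [map_add, LinearMap.add_apply, e2, zero_add] at e1
      exact e1
    · intro x hx
      rw [map_mul, Module.End.mul_apply, aeval_pow_sub, h2 x hx, map_zero]
  rw [← key]
  exact aeval_mem_span h hw _

/-- Some integral operator has, for the powers up to the dimension, the supertraces of a multiple of
the parity operator. -/
def IntegralPowerTraces (P : Module.End K V) (A : Set (Module.End K V)) : Prop :=
  ∃ m : ℕ, m ≠ 0 ∧ ∃ a ∈ A, ∀ k : ℕ, 1 ≤ k → k ≤ Module.finrank K V →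
    LinearMap.trace K V (a ^ k * P) = (m : K) ^ k *
      ((Module.finrank K (evenPart P) : K) - (-1) ^ k * Module.finrank K (oddPart P))

/-- Some combination of operators in `A` has, for the powers up to the dimension, the supertraces of
the parity operator. -/
def PowerTraces (P : Module.End K V) (A : Set (Module.End K V)) : Prop :=
  ∃ w ∈ Submodule.span K A, ∀ k : ℕ, 1 ≤ k → k ≤ Module.finrank K V →
    LinearMap.trace K V (w ^ k * P) =
      (Module.finrank K (evenPart P) : K) - (-1) ^ k * Module.finrank K (oddPart P)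

theorem span_of_powerTraces (h : EvenRing P A) (ht : PowerTraces P A) :
    evenProj P ∈ Submodule.span K A := by
  obtain ⟨w, hw, htr⟩ := ht
  obtain ⟨h1, h2⟩ := nilp_of_supertraces h.sq (span_comm h w hw) htr
  exact span_of_nilp h hw h1 h2

theorem trace_parity_pow (hP : P * P = 1) (k : ℕ) : LinearMap.trace K V (P ^ (k + 1)) =
    (Module.finrank K (evenPart P) : K) - (-1) ^ k * Module.finrank K (oddPart P) := by
  have hPEO : P = evenProj P - oddProj P := parity_eq
  rcases Nat.even_or_odd' k with ⟨j, rfl | rfl⟩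
  · rw [pow_succ, pow_mul, pow_two, hP, one_pow, one_mul]
    nth_rewrite 1 [hPEO]
    rw [map_sub, trace_evenProj hP, trace_oddProj hP, pow_mul, neg_one_sq, one_pow, one_mul]
  · rw [show 2 * j + 1 + 1 = 2 * (j + 1) by ring, pow_mul, pow_two, hP, one_pow, pow_succ, pow_mul,
      neg_one_sq, one_pow, one_mul, LinearMap.trace_one, ← finrank_parts hP]
    push_cast
    ring

theorem integralPowerTraces_of_int (h : EvenRing P A) {m : ℕ} (hm : m ≠ 0)
    (hA : (m : K) • evenProj P ∈ A) : IntegralPowerTraces P A := by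
  refine ⟨m, hm, (m : K) • P, ?_, ?_⟩
  · have e : (m : K) • P = (m : K) • evenProj P + (m : K) • evenProj P + -((m : K) • 1) := by
      nth_rewrite 1 [← evenProj_sub (P := P)]
      module
    rw [e]
    exact h.add _ (h.add _ hA _ hA) _ (h.neg _ (h.smul_nat m h.one))
  · intro k _ _
    rw [_root_.smul_pow, smul_mul_assoc, map_smul, smul_eq_mul, ← pow_succ, trace_parity_pow h.sq]

theorem powerTraces_of_integral (ht : IntegralPowerTraces P A) : PowerTraces P A := by
  obtain ⟨m, hm, a, ha, htr⟩ := ht
  have hm' : (m : K) ≠ 0 := by exact_mod_cast hm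
  refine ⟨(m : K)⁻¹ • a, Submodule.smul_mem _ _ (Submodule.subset_span ha), ?_⟩
  intro k hk1 hk2
  rw [_root_.smul_pow, smul_mul_assoc, map_smul, htr k hk1 hk2, smul_eq_mul, ← mul_assoc, ← mul_pow,
    inv_mul_cancel₀ hm', one_pow, one_mul]

theorem powerTraces_tfae (h : EvenRing P A) (F : Subfield K) :
    List.TFAE [evenProj P ∈ Submodule.span F A ∧ oddProj P ∈ Submodule.span F A,
      IntegralPowerTraces P A, PowerTraces P A] := by
  have hm := main_tfae h F
  tfae_have 1 → 2 := fun h1 => by
    obtain ⟨m, hm0, hmA⟩ := (hm.out 0 2).1 h1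
    exact integralPowerTraces_of_int h hm0 hmA
  tfae_have 2 → 3 := powerTraces_of_integral
  tfae_have 3 → 1 := fun h3 => (hm.out 0 1).2 (span_of_powerTraces h h3)
  tfae_finish

end

end Pool.Agent.X279.NK
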