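import Pool.Agent.X279.NK.Var

/-!
# Idempotents modulo numerical equivalence
-/

set_option autoImplicit false
set_option linter.unusedSectionVars false

open Polynomial

namespace Pool.Agent.X279.NK

open Pool.Agent.X310

section

variable {K V : Type*} [Field K] [AddCommGroup V] [Module K V]

/-- `z` is numerically trivial: the supertrace of `z b` is zero for all `b` in `A`. -/
def NumTrivial (P : Module.End K V) (A : Set (Module.End K V)) (z : Module.End K V) : Prop :=
  ∀ b ∈ A, LinearMap.trace K V (z * b * P) = 0

/-- `e` is a combination of operators in `A` and idempotent modulo numerical equivalence. -/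
def NumIdempotent (P : Module.End K V) (A : Set (Module.End K V)) (e : Module.End K V) : Prop :=
  e ∈ Submodule.span K A ∧ NumTrivial P A (e * e - e)

end

section

variable {K V : Type*} [Field K] [CharZero K] [AddCommGroup V] [Module K V] [Module.Finite K V]
  {P : Module.End K V} {A : Set (Module.End K V)}

theorem numTrivial_span {z : Module.End K V} (hz : NumTrivial P A z) :
    ∀ b ∈ Submodule.span K A, LinearMap.trace K V (z * b * P) = 0 := by
  intro b hb
  induction hb using Submodule.span_induction with
  | mem x hx => exact hz x hx
  | zero => rw [mul_zero, zero_mul, map_zero]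
  | add x y _ _ h1 h2 => rw [mul_add, add_mul, map_add, h1, h2, add_zero]
  | smul c x _ h1 => rw [mul_smul_comm, smul_mul_assoc, map_smul, h1, smul_zero]

theorem str_pow (h : EvenRing P A) {e : Module.End K V} (he : NumIdempotent P A e) (r : ℕ) :
    LinearMap.trace K V (e ^ (r + 1) * P) = LinearMap.trace K V (e * P) := by
  induction r with
  | zero => rw [zero_add, pow_one]
  | succ r ih =>
    rw [← ih]
    have h1 := numTrivial_span he.2 _ (pow_mem_span h he.1 r)
    rw [sub_mul, sub_mul, map_sub, sub_eq_zero] at h1
    have e1 : e * e * e ^ r = e ^ (r + 1 + 1) := by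
      rw [pow_succ', pow_succ', mul_assoc]
    have e2 : e * e ^ r = e ^ (r + 1) := (pow_succ' e r).symm
    rw [e1, e2] at h1
    exact h1

theorem numIdempotent_one_sub (h : EvenRing P A) {e : Module.End K V} (he : NumIdempotent P A e) :
    NumIdempotent P A (1 - e) := by
  refine ⟨Submodule.sub_mem _ (span_one h) he.1, ?_⟩
  have : (1 - e) * (1 - e) - (1 - e) = e * e - e := by noncomm_ring
  rw [this]
  exact he.2

/-- The spectral analysis of an idempotent modulo numerical equivalence. -/
theorem idem_spectral (h : EvenRing P A) {e : Module.End K V} (he : NumIdempotent P A e) :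
    ∃ n : ℤ, LinearMap.trace K V (e * P) = n ∧ n ≤ Module.finrank K (evenPart P) ∧
      (n = Module.finrank K (evenPart P) → evenProj P ∈ Submodule.span K A) := by
  classical
  have heP := span_comm h e he.1
  have heE : Commute e (evenProj P) := comm_even heP
  obtain ⟨s, d, h1, h2, h3⟩ := exists_spectral' e
    (fun b : Bool => if b then evenProj P else 1 - evenProj P)
    (by
      intro b
      cases b
      · simpa using (Commute.one_right e).sub_right heE
      · simpa using heE)
    (by
      intro b
      have hi : IsIdempotentElem (evenProj P) := evenProj_idem h.sq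
      cases b
      · simpa using hi.one_sub
      · simpa using hi)
    (by simp)
  have ht : ∀ r, algebraMap K (AlgebraicClosure K) (LinearMap.trace K V (evenProj P * e ^ r)) =
      ∑ α ∈ s, α ^ r * (d true α : AlgebraicClosure K) :=
    fun r => by simpa using h1 true r
  have hf : ∀ r, algebraMap K (AlgebraicClosure K)
      (LinearMap.trace K V ((1 - evenProj P) * e ^ r)) =
      ∑ α ∈ s, α ^ r * (d false α : AlgebraicClosure K) := fun r => by simpa using h1 false r
  set χ := algebraMap K (AlgebraicClosure K) (LinearMap.trace K V (e * P)) with hχ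
  have hstr : ∀ r, ∑ α ∈ s, α ^ (r + 1) *
      ((d true α : AlgebraicClosure K) - (d false α : AlgebraicClosure K)) = χ := by
    intro r
    rw [hχ, ← str_pow h he r, LinearMap.trace_mul_comm]
    have e5 : P * e ^ (r + 1) = evenProj P * e ^ (r + 1) - (1 - evenProj P) * e ^ (r + 1) := by
      rw [← sub_mul, evenProj_sub]
    rw [e5, map_sub, map_sub, ht, hf, ← Finset.sum_sub_distrib]
    exact Finset.sum_congr rfl fun α _ => by ring
  -- compare the power sums
  set A' : AlgebraicClosure K → ℕ := fun α => if α ∈ s then d true α else 0 with hA'
  set B' : AlgebraicClosure K → ℕ := fun α => if α ∈ s then d false α else 0 with hB'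
  have hs' : ∀ r, ∑ α ∈ insert 1 s, α ^ r *
      (α * ((A' α : AlgebraicClosure K) - (B' α : AlgebraicClosure K))) = χ := by
    intro r
    rw [← hstr r]
    symm
    refine Finset.sum_subset_zero_on_sdiff (Finset.subset_insert 1 s) ?_ ?_
    · intro α hα
      have : α ∉ s := (Finset.mem_sdiff.1 hα).2
      simp [hA', hB', this]
    · intro α hα
      simp only [hA', hB', hα, if_true]
      ring
  have hkey : ∀ α ∈ insert 1 s,
      α * ((A' α : AlgebraicClosure K) - (B' α : AlgebraicClosure K)) =
        if α = 1 then χ else 0 := by
    refine eq_of_power_sums (insert 1 s) _ _ fun r => ?_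
    rw [hs' r]
    rw [Finset.sum_eq_single (1 : AlgebraicClosure K)]
    · simp
    · intro b _ hb
      simp [hb]
    · intro h'
      exact absurd (Finset.mem_insert_self _ _) h'
  have hχ1 : (A' 1 : AlgebraicClosure K) - (B' 1 : AlgebraicClosure K) = χ := by
    have := hkey 1 (Finset.mem_insert_self _ _)
    simpa using this
  have hEd : ∑ α ∈ s, d true α = Module.finrank K (evenPart P) := by
    have := ht 0
    rw [pow_zero, mul_one, trace_evenProj h.sq, map_natCast] at this
    have h5 : ((∑ α ∈ s, d true α : ℕ) : AlgebraicClosure K) =
        (Module.finrank K (evenPart P) : AlgebraicClosure K) := by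
      rw [this]
      push_cast
      exact Finset.sum_congr rfl fun α _ => by rw [pow_zero, one_mul]
    exact_mod_cast h5
  have hA1 : A' 1 ≤ Module.finrank K (evenPart P) := by
    rw [← hEd]
    by_cases h1s : (1 : AlgebraicClosure K) ∈ s
    · simp only [hA', h1s, if_true]
      exact Finset.single_le_sum (f := fun α => d true α) (fun _ _ => Nat.zero_le _) h1s
    · simp [hA', h1s]
  refine ⟨(A' 1 : ℤ) - B' 1, ?_, ?_, ?_⟩
  · apply (algebraMap K (AlgebraicClosure K)).injective
    rw [← hχ, ← hχ1]
    push_cast
    simp
  · have : (A' 1 : ℤ) ≤ Module.finrank K (evenPart P) := by exact_mod_cast hA1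
    have h0 : (0 : ℤ) ≤ B' 1 := Int.natCast_nonneg _
    linarith
  · intro hn
    have hB1 : B' 1 = 0 := by
      have : (A' 1 : ℤ) ≤ Module.finrank K (evenPart P) := by exact_mod_cast hA1
      have h0 : (0 : ℤ) ≤ B' 1 := Int.natCast_nonneg _
      have : (B' 1 : ℤ) = 0 := by linarith
      exact_mod_cast this
    have hA1' : A' 1 = Module.finrank K (evenPart P) := by
      rw [hB1] at hn
      have : (A' 1 : ℤ) = Module.finrank K (evenPart P) := by linarith
      exact_mod_cast this
    -- the multiplicities on the even part are concentrated in `1`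
    have hdt : ∀ α ∈ s, d true α ≠ 0 → α = 1 := by
      intro α hα hd
      by_contra hne
      have h6 : d true α + A' 1 ≤ ∑ β ∈ s, d true β := by
        by_cases h1s : (1 : AlgebraicClosure K) ∈ s
        · simp only [hA', h1s, if_true]
          have : ({α, 1} : Finset (AlgebraicClosure K)) ⊆ s := by
            intro x hx
            simp only [Finset.mem_insert, Finset.mem_singleton] at hx
            rcases hx with rfl | rfl
            · exact hα
            · exact h1s
          calc d true α + d true 1 = ∑ β ∈ ({α, 1} : Finset (AlgebraicClosure K)), d true β :=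
                (Finset.sum_pair hne).symm
            _ ≤ _ := Finset.sum_le_sum_of_subset this
        · simp only [hA', h1s, if_false, add_zero]
          exact Finset.single_le_sum (f := fun α => d true α) (fun _ _ => Nat.zero_le _) hα
      rw [hEd, hA1'] at h6
      omega
    have hdf : ∀ α ∈ s, d false α ≠ 0 → α = 0 := by
      intro α hα hd
      by_contra hne
      by_cases h1 : α = 1
      · rw [h1] at hα hd
        simp only [hB', hα, if_true] at hB1
        exact hd hB1
      · have h6 := hkey α (Finset.mem_insert_of_mem hα)
        rw [if_neg h1] at h6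
        rcases mul_eq_zero.1 h6 with h7 | h7
        · exact hne h7
        · have h8 : A' α = B' α := by
            rw [sub_eq_zero] at h7
            exact_mod_cast h7
          simp only [hA', hB', hα, if_true] at h8
          exact h1 (hdt α hα (h8 ▸ hd))
    have n1 := h3 true 1 (by
      intro α hα hd
      rw [map_one]
      exact hdt α hα hd)
    have n2 := h3 false 0 (by
      intro α hα hd
      rw [map_zero]
      exact hdf α hα hd)
    simp only [if_true] at n1
    simp only [Bool.false_eq_true, if_false, one_sub_evenProj] at n2
    obtain ⟨k1, hk1⟩ := pow_zero_of_isNilpotent (U := evenPart P) heE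
      (fun x hx => evenProj_even hx) n1
    obtain ⟨k2, hk2⟩ := pow_zero_of_isNilpotent (U := oddPart P) (comm_odd heP)
      (fun x hx => oddProj_odd hx) n2
    have hw : (2 : K) • e - 1 ∈ Submodule.span K A :=
      Submodule.sub_mem _ (Submodule.smul_mem _ _ he.1) (span_one h)
    have w1 : (2 : K) • e - 1 - algebraMap K _ 1 = (2 : K) • (e - algebraMap K _ 1) := by
      rw [map_one, smul_sub, two_smul K (1 : Module.End K V)]
      abel
    have w2 : (2 : K) • e - 1 - algebraMap K _ (-1) = (2 : K) • (e - algebraMap K _ 0) := by
      rw [map_neg, map_one, map_zero, sub_zero]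
      abel
    apply span_of_nilp h hw (n := max k1 k2)
    · rw [w1]
      intro x hx
      rw [_root_.smul_pow, LinearMap.smul_apply, nilp_mono (le_max_left _ _) hk1 x hx, smul_zero]
    · rw [w2]
      intro x hx
      rw [_root_.smul_pow, LinearMap.smul_apply, nilp_mono (le_max_right _ _) hk2 x hx, smul_zero]

theorem str_one (h : EvenRing P A) : LinearMap.trace K V ((1 : Module.End K V) * P) =
    (Module.finrank K (evenPart P) : K) - Module.finrank K (oddPart P) := by
  have := trace_parity_pow h.sq 0
  rw [zero_add, pow_one, pow_zero, one_mul] at this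
  rw [one_mul, this]

/-- **Euler characteristics of idempotents modulo numerical equivalence.** -/
theorem idem_bounds (h : EvenRing P A) {e : Module.End K V} (he : NumIdempotent P A e) :
    ∃ n : ℤ, LinearMap.trace K V (e * P) = n ∧ -(Module.finrank K (oddPart P) : ℤ) ≤ n ∧
      n ≤ Module.finrank K (evenPart P) ∧
      (n = Module.finrank K (evenPart P) ∨ n = -(Module.finrank K (oddPart P) : ℤ) →
        evenProj P ∈ Submodule.span K A) := by
  obtain ⟨n, h1, h2, h3⟩ := idem_spectral h he
  obtain ⟨n', h1', h2', h3'⟩ := idem_spectral h (numIdempotent_one_sub h he)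
  have hn : (n' : K) = (Module.finrank K (evenPart P) : K) - Module.finrank K (oddPart P) - n := by
    rw [← h1', sub_mul, map_sub, str_one h, h1]
  have hn2 : n' = (Module.finrank K (evenPart P) : ℤ) - Module.finrank K (oddPart P) - n := by
    exact_mod_cast hn
  refine ⟨n, h1, by linarith, h2, ?_⟩
  rintro (h4 | h4)
  · exact h3 h4
  · exact h3' (by linarith)

theorem numIdempotent_evenProj (h : EvenRing P A) (hE : evenProj P ∈ Submodule.span K A) :
    NumIdempotent P A (evenProj P) := by
  refine ⟨hE, ?_⟩
  intro b _
  rw [evenProj_idem h.sq, sub_self, zero_mul, zero_mul, map_zero]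

theorem str_evenProj (h : EvenRing P A) :
    LinearMap.trace K V (evenProj P * P) = Module.finrank K (evenPart P) := by
  have : evenProj P * P = evenProj P := by
    rw [evenProj, smul_mul_assoc, add_mul, one_mul, h.sq, add_comm]
  rw [this, trace_evenProj h.sq]

end

end Pool.Agent.X279.NK
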