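import Pool.Agent.X279.NK.Euler
import Pool.Agent.X310.Spec

/-!
# The element representing the trace: an inequality with a gap
-/

set_option autoImplicit false
set_option linter.unusedSectionVars false

open Polynomial

namespace Pool.Agent.X279.NK

open Pool.Agent.X310

/-- The combinatorial part, with the gap. -/
lemma comb_gap {L : Type*} [Field L] [CharZero L] (s : Finset L) (a b : L → ℕ)
    (h2 : ∀ α ∈ s, 0 < a α + b α)
    (hkey : ∀ α ∈ s, α * ((a α : L) - (b α : L)) = (a α : L) + (b α : L)) :
    ∃ q : ℚ, 0 ≤ q ∧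
      ∑ α ∈ s, α ^ 2 * ((a α : L) + (b α : L)) - ∑ α ∈ s, ((a α : L) + (b α : L)) = (q : L) ∧
      (q ≤ 4 → ∀ α ∈ s, (a α ≠ 0 → α = 1) ∧ (b α ≠ 0 → α = -1)) := by
  classical
  have hne : ∀ α ∈ s, ((a α : ℚ) - (b α : ℚ)) ≠ 0 := by
    intro α hα h0
    have h6 := hkey α hα
    have h7 : ((a α : L) - (b α : L)) = 0 := by
      have := congrArg (fun x : ℚ => (x : L)) h0
      push_cast at this
      exact this
    rw [h7, mul_zero] at h6
    have h9 : a α + b α = 0 := by exact_mod_cast h6.symm
    have := h2 α hα
    omega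
  set ρ : L → ℚ := fun α => ((a α : ℚ) + b α) / ((a α : ℚ) - b α) with hρ
  have hρ1 : ∀ α ∈ s, ρ α * ((a α : ℚ) - b α) = (a α : ℚ) + b α := by
    intro α hα
    have := hne α hα
    rw [hρ]
    field_simp
  have hρ2 : ∀ α ∈ s, α = (ρ α : L) := by
    intro α hα
    have h0 : ((a α : L) - (b α : L)) ≠ 0 := by
      intro h
      apply hne α hα
      have : (((a α : ℚ) - b α : ℚ) : L) = ((0 : ℚ) : L) := by
        push_cast
        exact h
      exact_mod_cast this
    apply mul_right_cancel₀ h0
    rw [hkey α hα]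
    have h7 := congrArg (fun x : ℚ => (x : L)) (hρ1 α hα)
    push_cast at h7
    exact h7.symm
  have habs : ∀ α ∈ s, 1 ≤ ρ α ^ 2 := by
    intro α hα
    have h10 := hρ1 α hα
    have h11 : ((a α : ℚ) - b α) ^ 2 ≤ ((a α : ℚ) + b α) ^ 2 := by
      have h12 : (0 : ℚ) ≤ (a α : ℚ) * b α := by positivity
      nlinarith
    have h13 : 0 < ((a α : ℚ) - b α) ^ 2 := by
      have := hne α hα
      positivity
    rw [← h10, mul_pow] at h11
    by_contra hcon
    push Not at hcon
    nlinarith
  have hterm : ∀ α ∈ s, 0 ≤ (ρ α ^ 2 - 1) * ((a α : ℚ) + b α) := fun α hα =>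
    mul_nonneg (by linarith [habs α hα]) (by positivity)
  refine ⟨∑ α ∈ s, (ρ α ^ 2 - 1) * ((a α : ℚ) + b α), Finset.sum_nonneg hterm, ?_, ?_⟩
  · rw [← Finset.sum_sub_distrib]
    push_cast
    refine Finset.sum_congr rfl fun α hα => ?_
    have h15 : α ^ 2 = (ρ α : L) ^ 2 := congrArg (fun x : L => x ^ 2) (hρ2 α hα)
    rw [h15]
    ring
  · intro hq α hα
    have h16 : (ρ α ^ 2 - 1) * ((a α : ℚ) + b α) ≤ 4 :=
      (Finset.single_le_sum hterm hα).trans hq
    have h0 : a α = 0 ∨ b α = 0 := by
      by_contra hcon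
      push Not at hcon
      have ha : (1 : ℚ) ≤ a α := by exact_mod_cast Nat.one_le_iff_ne_zero.2 hcon.1
      have hb : (1 : ℚ) ≤ b α := by exact_mod_cast Nat.one_le_iff_ne_zero.2 hcon.2
      have h13 : 0 < ((a α : ℚ) - b α) ^ 2 := by
        have := hne α hα
        positivity
      have h17 := hρ1 α hα
      have h18 : (ρ α ^ 2 - 1) * ((a α : ℚ) + b α) * ((a α : ℚ) - b α) ^ 2 =
          4 * (a α * b α * ((a α : ℚ) + b α)) := by
        have : ρ α ^ 2 * ((a α : ℚ) - b α) ^ 2 = ((a α : ℚ) + b α) ^ 2 := by
          rw [← mul_pow, h17]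
        linear_combination ((a α : ℚ) + b α) * this
      have h19 : 4 * ((a α : ℚ) - b α) ^ 2 < 4 * (a α * b α * ((a α : ℚ) + b α)) := by
        have e1 : 0 ≤ ((a α : ℚ) - 1) * ((b α : ℚ) - 1) :=
          mul_nonneg (by linarith) (by linarith)
        have e2 : 0 ≤ ((a α : ℚ) - 1) * ((b α : ℚ) - 1) * ((a α : ℚ) + b α) :=
          mul_nonneg e1 (by linarith)
        nlinarith
      nlinarith
    rcases h0 with h0 | h0
    · refine ⟨fun h => absurd h0 h, fun hb => ?_⟩
      have h20 := hkey α hα
      rw [h0] at h20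
      have hb' : (b α : L) ≠ 0 := by exact_mod_cast hb
      apply mul_right_cancel₀ hb'
      push_cast at h20
      linear_combination -h20
    · refine ⟨fun ha => ?_, fun h => absurd h0 h⟩
      have h20 := hkey α hα
      rw [h0] at h20
      have ha' : (a α : L) ≠ 0 := by exact_mod_cast ha
      apply mul_right_cancel₀ ha'
      push_cast at h20
      linear_combination h20

section

variable {K V : Type*} [Field K] [CharZero K] [AddCommGroup V] [Module K V] [Module.Finite K V]

open LinearMap Module

/-- The inequality for the sign, with the gap. -/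
theorem sign_gap (c e : End K V) (hc : Commute c e) (he : IsIdempotentElem e)
    (htr : ∀ r, trace K V ((2 * e - 1) * c ^ (r + 1)) = trace K V (c ^ r)) :
    ∃ q : ℚ, 0 ≤ q ∧ trace K V (c ^ 2) - (finrank K V : K) = (q : K) ∧
      (q ≤ 4 → IsNilpotent ((c - algebraMap K _ 1) * e) ∧
        IsNilpotent ((c - algebraMap K _ (-1)) * (1 - e))) := by
  obtain ⟨s, d, h1, h2, h3⟩ := exists_spectral' c (fun b : Bool => if b then e else 1 - e)
    (by
      intro b
      cases b
      · simpa using (Commute.one_right c).sub_right hc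
      · simpa using hc)
    (by
      intro b
      cases b
      · simpa using he.one_sub
      · simpa using he)
    (by simp)
  have ht : ∀ r, algebraMap K (AlgebraicClosure K) (trace K V (e * c ^ r)) =
      ∑ α ∈ s, α ^ r * (d true α : AlgebraicClosure K) :=
    fun r => by simpa using h1 true r
  have hf : ∀ r, algebraMap K (AlgebraicClosure K) (trace K V ((1 - e) * c ^ r)) =
      ∑ α ∈ s, α ^ r * (d false α : AlgebraicClosure K) := fun r => by simpa using h1 false r
  have htot : ∀ r, algebraMap K (AlgebraicClosure K) (trace K V (c ^ r)) =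
      ∑ α ∈ s, α ^ r * ((d true α : AlgebraicClosure K) + (d false α : AlgebraicClosure K)) := by
    intro r
    have h4 : c ^ r = e * c ^ r + (1 - e) * c ^ r := by rw [← add_mul]; simp
    rw [h4, map_add, map_add, ht, hf, ← Finset.sum_add_distrib]
    exact Finset.sum_congr rfl fun α _ => by ring
  have hkey : ∀ α ∈ s, α * ((d true α : AlgebraicClosure K) - (d false α : AlgebraicClosure K)) =
      (d true α : AlgebraicClosure K) + (d false α : AlgebraicClosure K) := by
    refine eq_of_power_sums s _ _ fun r => ?_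
    rw [← htot r, ← htr r]
    have h5 : (2 * e - 1) * c ^ (r + 1) = e * c ^ (r + 1) - (1 - e) * c ^ (r + 1) := by
      rw [← sub_mul]
      congr 1
      rw [two_mul]
      abel
    rw [h5, map_sub, map_sub, ht, hf, ← Finset.sum_sub_distrib]
    exact Finset.sum_congr rfl fun α _ => by rw [pow_succ]; ring
  obtain ⟨q, hq1, hq2, hq3⟩ := comb_gap s (d true) (d false)
    (fun α hα => by simpa using h2 α hα) hkey
  refine ⟨q, hq1, ?_, fun hq => ⟨?_, ?_⟩⟩
  · apply (algebraMap K (AlgebraicClosure K)).injective
    have h14 : algebraMap K (AlgebraicClosure K) (finrank K V : K) =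
        ∑ α ∈ s, ((d true α : AlgebraicClosure K) + (d false α : AlgebraicClosure K)) := by
      have := htot 0
      rw [pow_zero, LinearMap.trace_one] at this
      rw [this]
      exact Finset.sum_congr rfl fun α _ => by rw [pow_zero, one_mul]
    rw [map_sub, htot 2, h14, map_ratCast, ← hq2]
  · have := h3 true 1 (by
      intro α hα hd
      rw [map_one]
      exact (hq3 hq α hα).1 hd)
    simpa using this
  · have := h3 false (-1) (by
      intro α hα hd
      rw [map_neg, map_one]
      exact (hq3 hq α hα).2 hd)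
    simpa using this

end

section

variable {K V : Type*} [Field K] [CharZero K] [AddCommGroup V] [Module K V] [Module.Finite K V]
  {P : Module.End K V} {A : Set (Module.End K V)}

/-- `w` represents the (ordinary) trace: the supertrace of `w b` is the trace of `b`, for all `b` in
`A`. -/
def Represents (P : Module.End K V) (A : Set (Module.End K V)) (w : Module.End K V) : Prop :=
  ∀ b ∈ A, LinearMap.trace K V (w * b * P) = LinearMap.trace K V b

theorem represents_span {w : Module.End K V} (hr : Represents P A w) :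
    ∀ b ∈ Submodule.span K A, LinearMap.trace K V (w * b * P) = LinearMap.trace K V b := by
  intro b hb
  induction hb using Submodule.span_induction with
  | mem x hx => exact hr x hx
  | zero => rw [mul_zero, zero_mul, map_zero]
  | add x y _ _ h1 h2 => rw [mul_add, add_mul, map_add, h1, h2, map_add]
  | smul c x _ h1 => rw [mul_smul_comm, smul_mul_assoc, map_smul, h1, map_smul]

theorem pow_mem_span (h : EvenRing P A) {w : Module.End K V} (hw : w ∈ Submodule.span K A)
    (r : ℕ) : w ^ r ∈ Submodule.span K A := by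
  induction r with
  | zero => rw [pow_zero]; exact span_one h
  | succ r ih => rw [pow_succ]; exact span_mul h _ ih _ hw

theorem parity_mem_span (h : EvenRing P A) (hE : evenProj P ∈ Submodule.span K A) :
    P ∈ Submodule.span K A := by
  rw [← evenProj_sub (P := P)]
  exact Submodule.sub_mem _ hE (Submodule.sub_mem _ (span_one h) hE)

theorem pow_zero_of_isNilpotent {w E : Module.End K V} {U : Submodule K V} {c : K}
    (hwE : w * E = E * w) (hEU : ∀ x ∈ U, E x = x)
    (hn : IsNilpotent ((w - algebraMap K _ c) * E)) :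
    ∃ n : ℕ, ∀ x ∈ U, ((w - algebraMap K _ c) ^ n) x = 0 := by
  obtain ⟨n, hn⟩ := hn
  refine ⟨n, fun x hx => ?_⟩
  have hcomm : Commute (w - algebraMap K (Module.End K V) c) E :=
    Commute.sub_left hwE (Algebra.commute_algebraMap_left _ _)
  rw [hcomm.mul_pow] at hn
  have h2 : ∀ n : ℕ, (E ^ n) x = x := by
    intro n
    induction n with
    | zero => rw [pow_zero, Module.End.one_apply]
    | succ n ih => rw [pow_succ, Module.End.mul_apply, hEU x hx, ih]
  have h3 := LinearMap.congr_fun hn x
  rw [Module.End.mul_apply, h2, LinearMap.zero_apply] at h3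
  exact h3

theorem nilp_mono {T : Module.End K V} {U : Submodule K V} {n m : ℕ} (h : n ≤ m)
    (hn : ∀ x ∈ U, (T ^ n) x = 0) : ∀ x ∈ U, (T ^ m) x = 0 := by
  intro x hx
  rw [← Nat.sub_add_cancel h, pow_add, Module.End.mul_apply, hn x hx, map_zero]

/-- **The inequality, with its equality case and its gap.** -/
theorem trace_gap (h : EvenRing P A) {w : Module.End K V} (hw : w ∈ Submodule.span K A)
    (hr : Represents P A w) :
    ∃ q : ℚ, LinearMap.trace K V (w ^ 3 * P) = (q : K) ∧ (Module.finrank K V : ℚ) ≤ q ∧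
      (evenProj P ∈ Submodule.span K A → q = Module.finrank K V) ∧
      (q ≤ Module.finrank K V + 4 → evenProj P ∈ Submodule.span K A) := by
  have hwP := span_comm h w hw
  have hwE := comm_even hwP
  have h2e : (2 : Module.End K V) * evenProj P - 1 = P := by
    have e : (2 : Module.End K V) * evenProj P - 1 = evenProj P - (1 - evenProj P) := by
      rw [two_mul]; abel
    rw [e, evenProj_sub]
  have hrs := represents_span hr
  have htr : ∀ r, LinearMap.trace K V ((2 * evenProj P - 1) * w ^ (r + 1)) =
      LinearMap.trace K V (w ^ r) := by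
    intro r
    rw [h2e, LinearMap.trace_mul_comm, pow_succ']
    exact hrs _ (pow_mem_span h hw r)
  obtain ⟨q, hq1, hq2, hq3⟩ := sign_gap w (evenProj P) hwE (evenProj_idem h.sq) htr
  have h3 : LinearMap.trace K V (w ^ 3 * P) = LinearMap.trace K V (w ^ 2) := by
    rw [pow_succ' w 2]
    exact hrs _ (pow_mem_span h hw 2)
  refine ⟨q + Module.finrank K V, ?_, by linarith, fun hE => ?_, fun hq => ?_⟩
  · rw [h3]
    push_cast
    rw [← hq2]
    ring
  · have hPs := parity_mem_span h hE
    have e1 := hrs _ (span_mul h _ hPs _ hw)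
    have e2 := hrs _ (span_one h)
    rw [mul_one, LinearMap.trace_one] at e2
    have e3 : w * (P * w) * P = w ^ 2 := by
      rw [← hwP, mul_assoc, mul_assoc, h.sq, mul_one, pow_two]
    rw [e3, ← hwP, e2] at e1
    rw [e1, sub_self] at hq2
    have : q = 0 := by exact_mod_cast hq2.symm
    rw [this, zero_add]
  · obtain ⟨n1, n2⟩ := hq3 (by linarith)
    obtain ⟨k1, hk1⟩ := pow_zero_of_isNilpotent (U := evenPart P) hwE
      (fun x hx => evenProj_even hx) n1
    rw [one_sub_evenProj] at n2
    obtain ⟨k2, hk2⟩ := pow_zero_of_isNilpotent (U := oddPart P) (comm_odd hwP)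
      (fun x hx => oddProj_odd hx) n2
    exact span_of_nilp h hw (n := max k1 k2) (nilp_mono (le_max_left _ _) hk1)
      (nilp_mono (le_max_right _ _) hk2)

end

end Pool.Agent.X279.NK
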