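import Pool.Agent.X279.NK.Cat
import Pool.Agent.X279.NK.Idem

/-!
# Two realisations of one category
-/

set_option autoImplicit false
set_option linter.unusedSectionVars false

open CategoryTheory MonoidalCategory

namespace Pool.Agent.X279.NK

open Pool.Agent.Y112.SR

/-! ### Two rings of operators with the same supertraces -/

section

variable {K V K' V' : Type*} [Field K] [CharZero K] [AddCommGroup V] [Module K V]
  [Module.Finite K V] [Field K'] [CharZero K'] [AddCommGroup V'] [Module K' V']
  [Module.Finite K' V']

/-- Two families of operators, indexed by the elements of a ring, with the same rational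
supertraces. -/
structure SameTraces {E : Type*} [Ring E] (P : Module.End K V) (P' : Module.End K' V')
    (φ : E →+* Module.End K V) (φ' : E →+* Module.End K' V') : Prop where
  ring : EvenRing P (Set.range φ)
  ring' : EvenRing P' (Set.range φ')
  same : ∀ x : E, ∃ q : ℚ, LinearMap.trace K V (φ x * P) = q ∧
    LinearMap.trace K' V' (φ' x * P') = q

variable {E : Type*} [Ring E] {P : Module.End K V} {P' : Module.End K' V'}
  {φ : E →+* Module.End K V} {φ' : E →+* Module.End K' V'}

theorem SameTraces.symm (h : SameTraces P P' φ φ') : SameTraces P' P φ' φ :=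
  ⟨h.ring', h.ring, fun x => by obtain ⟨q, h1, h2⟩ := h.same x; exact ⟨q, h2, h1⟩⟩

/-- A multiple of the even projector of the first family is an idempotent modulo numerical
equivalence in the second family. -/
theorem transfer_idem (h : SameTraces P P' φ φ') {m : ℕ} (hm : m ≠ 0) {x : E}
    (hx : φ x = (m : K) • evenProj P) :
    NumIdempotent P' (Set.range φ') ((m : K')⁻¹ • φ' x) ∧
      LinearMap.trace K' V' (((m : K')⁻¹ • φ' x) * P') = Module.finrank K (evenPart P) := by
  have hmK : (m : K) ≠ 0 := by exact_mod_cast hm
  have hmK' : (m : K') ≠ 0 := by exact_mod_cast hm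
  refine ⟨⟨Submodule.smul_mem _ _ (Submodule.subset_span ⟨x, rfl⟩), ?_⟩, ?_⟩
  · rintro _ ⟨y, rfl⟩
    -- the element `x * x - m * x` of the ring has zero image in the first family
    have h0 : φ (x * x - (m : E) * x) = 0 := by
      rw [map_sub, map_mul, map_mul, map_natCast, hx, smul_mul_assoc, mul_smul_comm,
        evenProj_idem h.ring.sq, ← nsmul_eq_mul, ← Nat.cast_smul_eq_nsmul K, sub_self]
    obtain ⟨q, h1, h2⟩ := h.same ((x * x - (m : E) * x) * y)
    rw [RingHom.map_mul, h0, zero_mul, zero_mul, map_zero] at h1
    have hq : q = 0 := by exact_mod_cast h1.symm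
    have e1 : ((m : K')⁻¹ • φ' x) * ((m : K')⁻¹ • φ' x) - (m : K')⁻¹ • φ' x =
        ((m : K')⁻¹ * (m : K')⁻¹) • φ' (x * x - (m : E) * x) := by
      rw [map_sub, map_mul, map_mul, map_natCast, smul_mul_assoc, mul_smul_comm, smul_smul, smul_sub]
      congr 1
      rw [← nsmul_eq_mul, ← Nat.cast_smul_eq_nsmul K', smul_smul, mul_assoc,
        inv_mul_cancel₀ hmK', mul_one]
    rw [e1, smul_mul_assoc, smul_mul_assoc, map_smul, ← RingHom.map_mul, h2, hq, Rat.cast_zero,
      smul_zero]
  · obtain ⟨q, h1, h2⟩ := h.same x
    rw [hx, smul_mul_assoc, map_smul, str_evenProj h.ring, smul_eq_mul] at h1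
    have hq : q = m * Module.finrank K (evenPart P) := by
      have : ((m * Module.finrank K (evenPart P) : ℚ) : K) = (q : K) := by
        rw [← h1]; push_cast; rfl
      exact_mod_cast this.symm
    rw [smul_mul_assoc, map_smul, h2, hq, smul_eq_mul]
    push_cast
    rw [← mul_assoc, inv_mul_cancel₀ hmK', one_mul]

theorem same_euler (h : SameTraces P P' φ φ') :
    (Module.finrank K (evenPart P) : ℤ) - Module.finrank K (oddPart P) =
      (Module.finrank K' (evenPart P') : ℤ) - Module.finrank K' (oddPart P') := by
  obtain ⟨q, h1, h2⟩ := h.same 1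
  rw [map_one, str_one h.ring] at h1
  rw [map_one, str_one h.ring'] at h2
  have e1 : q = (Module.finrank K (evenPart P) : ℚ) - Module.finrank K (oddPart P) := by
    have : (((Module.finrank K (evenPart P) : ℚ) - Module.finrank K (oddPart P) : ℚ) : K) = q := by
      rw [← h1]; push_cast; rfl
    exact_mod_cast this.symm
  have e2 : q = (Module.finrank K' (evenPart P') : ℚ) - Module.finrank K' (oddPart P') := by
    have : (((Module.finrank K' (evenPart P') : ℚ) - Module.finrank K' (oddPart P') : ℚ) : K') =
        q := by
      rw [← h2]; push_cast; rfl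
    exact_mod_cast this.symm
  have e3 := e1.symm.trans e2
  exact_mod_cast e3

theorem indep_aux (h : SameTraces P P' φ φ') (hE : evenProj P ∈ Submodule.span K (Set.range φ)) :
    Module.finrank K (evenPart P) ≤ Module.finrank K' (evenPart P') ∧
      (Module.finrank K (evenPart P) = Module.finrank K' (evenPart P') →
        evenProj P' ∈ Submodule.span K' (Set.range φ')) := by
  obtain ⟨m, hm, x, hx⟩ := exists_int h.ring hE
  obtain ⟨h1, h2⟩ := transfer_idem h hm hx
  obtain ⟨n, h3, -, h4, h5⟩ := idem_bounds h.ring' h1
  rw [h2] at h3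
  have hn : (Module.finrank K (evenPart P) : ℤ) = n := by exact_mod_cast h3
  refine ⟨by exact_mod_cast hn.trans_le h4, fun he => h5 (Or.inl ?_)⟩
  rw [← hn, he]

/-- **Independence of the realisation.** -/
theorem independence (h : SameTraces P P' φ φ')
    (hE : evenProj P ∈ Submodule.span K (Set.range φ)) :
    Module.finrank K (evenPart P) ≤ Module.finrank K' (evenPart P') ∧
      Module.finrank K (oddPart P) ≤ Module.finrank K' (oddPart P') ∧
      (evenProj P' ∈ Submodule.span K' (Set.range φ') ↔
        Module.finrank K (evenPart P) = Module.finrank K' (evenPart P')) := by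
  obtain ⟨h1, h2⟩ := indep_aux h hE
  have he := same_euler h
  exact ⟨h1, by omega, fun h' => le_antisymm h1 (indep_aux h.symm h').1, h2⟩

end

/-! ### Two realisations -/

universe v u w w'

section

variable {C : Type u} [Category.{v} C] [Preadditive C] [MonoidalCategory C] [SymmetricCategory C]
  {K : Type w} [Field K] (R : SuperRealisation C K)

/-- The action of the endomorphisms of `A` on the realisation. -/
def actOn (A : C) : End A →+* Module.End K (R.H.obj A) where
  toFun x := (R.H.map x).hom
  map_one' := by
    show (R.H.map (𝟙 A)).hom = 1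
    rw [CategoryTheory.Functor.map_id]
    rfl
  map_mul' x y := by
    show (R.H.map (y ≫ x)).hom = _
    rw [Functor.map_comp]
    rfl
  map_zero' := by
    show (R.H.map (0 : A ⟶ A)).hom = 0
    rw [Functor.map_zero]
    rfl
  map_add' x y := by
    show (R.H.map ((x : A ⟶ A) + y)).hom = _
    rw [Functor.map_add]
    rfl

theorem range_actOn (A : C) : Set.range (actOn R A) = ops R A := rfl

variable [RightRigidCategory C] [CharZero K] {K' : Type w'} [Field K'] [CharZero K']
  (R' : SuperRealisation C K')

theorem sameTraces (hu : IntegralUnit C) (A : C) :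
    SameTraces (parity R A) (parity R' A) (actOn R A) (actOn R' A) where
  ring := evenRing R hu A
  ring' := evenRing R' hu A
  same x := by
    obtain ⟨n, hn⟩ := hu (ptr (𝟙_ C ◁ (x : A ⟶ A)))
    refine ⟨(n : ℚ), ?_, ?_⟩
    · rw [Rat.cast_intCast, ← str_of_ptr R x hn, LinearMap.trace_mul_comm]
      rfl
    · rw [Rat.cast_intCast, ← str_of_ptr R' x hn, LinearMap.trace_mul_comm]
      rfl

end

end Pool.Agent.X279.NK
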