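import Pool.Agent.X279.NK.Tfae
import Pool.Agent.Y112.SR.Main

/-!
# Noncommutative correspondences: the ring of operators on periodic cyclic homology
-/

set_option autoImplicit false
set_option linter.unusedSectionVars false

open CategoryTheory Limits MonoidalCategory

namespace Pool.Agent.X279.NK

open Pool.Agent.Y112.SR
open Functor.LaxMonoidal Functor.OplaxMonoidal

universe v u w

section

variable {C : Type u} [Category.{v} C] [Preadditive C] [MonoidalCategory C] [SymmetricCategory C]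
  {K : Type w} [Field K] (R : SuperRealisation C K)

/-- The operators on `R.H A` induced by the endomorphisms of `A`. -/
def ops (A : C) : Set (Module.End K (R.H.obj A)) := {φ | ∃ f : A ⟶ A, (R.H.map f).hom = φ}

/-- The operator which is `1` on the even and `-1` on the odd part of `R.H A`. -/
def parity (A : C) : Module.End K (R.H.obj A) := (R.par A).hom

/-- The endomorphisms of the unit object are the integral multiples of the identity. -/
def IntegralUnit (C : Type u) [Category.{v} C] [Preadditive C] [MonoidalCategory C] : Prop :=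
  ∀ f : 𝟙_ C ⟶ 𝟙_ C, ∃ n : ℤ, f = n • 𝟙 (𝟙_ C)

theorem parity_sq (A : C) : parity R A * parity R A = 1 := by
  have h := congrArg ModuleCat.Hom.hom (R.par_sq A)
  exact h

variable [RightRigidCategory C] [CharZero K]

/-- The supertrace is computed in the category. -/
theorem str_of_ptr {A : C} (f : A ⟶ A) {n : ℤ} (hn : ptr (𝟙_ C ◁ f) = n • 𝟙 (𝟙_ C)) :
    LinearMap.trace K (R.H.obj A) (R.H.map f ≫ R.par A).hom = n := by
  have h1 := map_ptr R (M := 𝟙_ C) (N := A) (𝟙_ C ◁ f)
  rw [hn, Functor.map_zsmul, CategoryTheory.Functor.map_id] at h1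
  have h2 : μ R.H (𝟙_ C) A ≫ R.H.map (𝟙_ C ◁ f) ≫ δ R.H (𝟙_ C) A =
      𝟙 (R.H.obj (𝟙_ C)) ⊗ₘ R.H.map f := by
    rw [Functor.Monoidal.map_whiskerLeft, MonoidalCategory.id_tensorHom]
    simp only [Category.assoc, Functor.Monoidal.μ_δ, Category.comp_id,
      Functor.Monoidal.μ_δ_assoc]
  rw [h2, pt_tensor R two_ne_zero] at h1
  -- the unit object is not zero
  have h3 : (((n : K) - LinearMap.trace K (R.H.obj A) (R.H.map f ≫ R.par A).hom) : K) •
      𝟙 (R.H.obj (𝟙_ C)) = 0 := by
    rw [sub_smul, Int.cast_smul_eq_zsmul, h1, sub_self]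
  by_contra hne
  have h4 : (n : K) - LinearMap.trace K (R.H.obj A) (R.H.map f ≫ R.par A).hom ≠ 0 :=
    fun h0 => hne (sub_eq_zero.1 h0).symm
  have h5 : 𝟙 (R.H.obj (𝟙_ C)) = 0 := by
    have := congrArg (fun z => ((n : K) - LinearMap.trace K (R.H.obj A)
      (R.H.map f ≫ R.par A).hom)⁻¹ • z) h3
    simpa only [smul_smul, inv_mul_cancel₀ h4, one_smul, smul_zero] using this
  have h6 : 𝟙 (𝟙_ (ModuleCat.{w} K)) = 0 := by
    rw [← Functor.Monoidal.ε_η R.H, ← Category.id_comp (η R.H), h5, zero_comp, comp_zero]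
  have h7 := LinearMap.congr_fun (congrArg ModuleCat.Hom.hom h6) (1 : K)
  exact one_ne_zero (α := K) h7

theorem str_int (hu : IntegralUnit C) {A : C} (f : A ⟶ A) :
    ∃ n : ℤ, LinearMap.trace K (R.H.obj A) (R.H.map f ≫ R.par A).hom = n := by
  obtain ⟨n, hn⟩ := hu (ptr (𝟙_ C ◁ f))
  exact ⟨n, str_of_ptr R f hn⟩

theorem evenRing (hu : IntegralUnit C) (A : C) : EvenRing (parity R A) (ops R A) where
  sq := parity_sq R A
  one := ⟨𝟙 A, by rw [CategoryTheory.Functor.map_id]; rfl⟩
  add := by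
    rintro _ ⟨f, rfl⟩ _ ⟨g, rfl⟩
    exact ⟨f + g, by rw [Functor.map_add]; rfl⟩
  neg := by
    rintro _ ⟨f, rfl⟩
    exact ⟨-f, by rw [Functor.map_neg]; rfl⟩
  mul := by
    rintro _ ⟨f, rfl⟩ _ ⟨g, rfl⟩
    exact ⟨g ≫ f, by rw [Functor.map_comp]; rfl⟩
  comm := by
    rintro _ ⟨f, rfl⟩
    have h := congrArg ModuleCat.Hom.hom (R.par_natural f)
    exact h.symm
  str := by
    rintro _ ⟨f, rfl⟩
    obtain ⟨n, hn⟩ := str_int R hu f
    refine ⟨(n : ℚ), ?_⟩
    rw [Rat.cast_intCast, ← hn, LinearMap.trace_mul_comm]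
    rfl

end

end Pool.Agent.X279.NK
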