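import Pool.Agent.TH133.PW.CasB

/-!
# Rings of even operators on a super vector space: when is the parity operator algebraic?
-/

set_option autoImplicit false
set_option linter.unusedSectionVars false

open Polynomial

namespace Pool.Agent.X279.NK

section Defs

variable {K V : Type*} [Field K] [AddCommGroup V] [Module K V]

/-- The even part of `V`, for the parity operator `P`. -/
def evenPart (P : Module.End K V) : Submodule K V := LinearMap.ker (P - 1)

/-- The odd part of `V`, for the parity operator `P`. -/
def oddPart (P : Module.End K V) : Submodule K V := LinearMap.ker (P + 1)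

/-- The projector onto the even part. -/
noncomputable def evenProj (P : Module.End K V) : Module.End K V := (2 : K)⁻¹ • (1 + P)

/-- The projector onto the odd part. -/
noncomputable def oddProj (P : Module.End K V) : Module.End K V := (2 : K)⁻¹ • (1 - P)

theorem mem_evenPart {P : Module.End K V} {x : V} : x ∈ evenPart P ↔ P x = x := by
  rw [evenPart, LinearMap.mem_ker, LinearMap.sub_apply, Module.End.one_apply, sub_eq_zero]

theorem mem_oddPart {P : Module.End K V} {x : V} : x ∈ oddPart P ↔ P x = -x := by
  rw [oddPart, LinearMap.mem_ker, LinearMap.add_apply, Module.End.one_apply,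
    add_eq_zero_iff_eq_neg]

/-- The operators of the set `A` form a ring (closed under sums, differences and products, with
`1`), commute with `P`, and their supertraces are rational. -/
structure EvenRing (P : Module.End K V) (A : Set (Module.End K V)) : Prop where
  sq : P * P = 1
  one : 1 ∈ A
  add : ∀ a ∈ A, ∀ b ∈ A, a + b ∈ A
  neg : ∀ a ∈ A, -a ∈ A
  mul : ∀ a ∈ A, ∀ b ∈ A, a * b ∈ A
  comm : ∀ a ∈ A, a * P = P * a
  str : ∀ a ∈ A, ∃ m : ℚ, LinearMap.trace K V (a * P) = m

theorem EvenRing.even {P : Module.End K V} {A : Set (Module.End K V)} (h : EvenRing P A)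
    {a : Module.End K V} (ha : a ∈ A) : ∀ x ∈ evenPart P, a x ∈ evenPart P := by
  intro x hx
  rw [mem_evenPart] at hx ⊢
  rw [← Module.End.mul_apply, ← h.comm a ha, Module.End.mul_apply, hx]

theorem EvenRing.odd {P : Module.End K V} {A : Set (Module.End K V)} (h : EvenRing P A)
    {a : Module.End K V} (ha : a ∈ A) : ∀ x ∈ oddPart P, a x ∈ oddPart P := by
  intro x hx
  rw [mem_oddPart] at hx ⊢
  rw [← Module.End.mul_apply, ← h.comm a ha, Module.End.mul_apply, hx, map_neg]

end Defs

section Main

variable {K V : Type*} [Field K] [CharZero K] [AddCommGroup V] [Module K V]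
  {P : Module.End K V} {A : Set (Module.End K V)}

theorem EvenRing.smul_nat (h : EvenRing P A) (n : ℕ) {a : Module.End K V} (ha : a ∈ A) :
    (n : K) • a ∈ A := by
  induction n with
  | zero =>
    have := h.add _ ha _ (h.neg _ ha)
    simpa using this
  | succ n ih =>
    rw [Nat.cast_succ, add_smul, one_smul]
    exact h.add _ ih _ ha

theorem EvenRing.smul_int (h : EvenRing P A) (n : ℤ) {a : Module.End K V} (ha : a ∈ A) :
    (n : K) • a ∈ A := by
  obtain ⟨m, rfl | rfl⟩ := n.eq_nat_or_neg
  · simpa using h.smul_nat m ha
  · have := h.neg _ (h.smul_nat m ha)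
    simpa using this

theorem span_one (h : EvenRing P A) : (1 : Module.End K V) ∈ Submodule.span K A :=
  Submodule.subset_span h.one

theorem span_mul (h : EvenRing P A) : ∀ a ∈ Submodule.span K A, ∀ b ∈ Submodule.span K A,
    a * b ∈ Submodule.span K A := by
  intro a ha b hb
  induction ha using Submodule.span_induction with
  | mem x hx =>
    induction hb using Submodule.span_induction with
    | mem y hy => exact Submodule.subset_span (h.mul x hx y hy)
    | zero => rw [mul_zero]; exact Submodule.zero_mem _
    | add y z _ _ h1 h2 => rw [mul_add]; exact Submodule.add_mem _ h1 h2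
    | smul c y _ h1 => rw [mul_smul_comm]; exact Submodule.smul_mem _ c h1
  | zero => rw [zero_mul]; exact Submodule.zero_mem _
  | add y z _ _ h1 h2 => rw [add_mul]; exact Submodule.add_mem _ h1 h2
  | smul c y _ h1 => rw [smul_mul_assoc]; exact Submodule.smul_mem _ c h1

theorem span_comm (h : EvenRing P A) : ∀ a ∈ Submodule.span K A, a * P = P * a := by
  intro a ha
  induction ha using Submodule.span_induction with
  | mem x hx => exact h.comm x hx
  | zero => rw [zero_mul, mul_zero]
  | add y z _ _ h1 h2 => rw [add_mul, mul_add, h1, h2]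
  | smul c y _ h1 => rw [smul_mul_assoc, mul_smul_comm, h1]

theorem span_even (h : EvenRing P A) : ∀ a ∈ Submodule.span K A,
    ∀ x ∈ evenPart P, a x ∈ evenPart P := by
  intro a ha x hx
  rw [mem_evenPart] at hx ⊢
  rw [← Module.End.mul_apply, ← span_comm h a ha, Module.End.mul_apply, hx]

theorem span_odd (h : EvenRing P A) : ∀ a ∈ Submodule.span K A,
    ∀ x ∈ oddPart P, a x ∈ oddPart P := by
  intro a ha x hx
  rw [mem_oddPart] at hx ⊢
  rw [← Module.End.mul_apply, ← span_comm h a ha, Module.End.mul_apply, hx, map_neg]

theorem evenProj_idem (h : P * P = 1) : evenProj P * evenProj P = evenProj P := by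
  rw [evenProj, smul_mul_assoc, mul_smul_comm, mul_add, add_mul, add_mul, h, one_mul, one_mul,
    mul_one]
  have h2 : (1 + P + (P + 1) : Module.End K V) = (2 : K) • (1 + P) := by
    rw [two_smul]; abel
  rw [h2, smul_smul (2 : K)⁻¹ 2, inv_mul_cancel₀ two_ne_zero, one_smul]

theorem one_sub_evenProj : 1 - evenProj P = oddProj P := by
  have h2 : (1 : Module.End K V) = (2 : K)⁻¹ • ((2 : K) • 1) := by
    rw [smul_smul, inv_mul_cancel₀ two_ne_zero, one_smul]
  rw [evenProj, oddProj]
  nth_rw 1 [h2]
  rw [← smul_sub, two_smul]
  congr 1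
  abel

theorem evenProj_sub : evenProj P - (1 - evenProj P) = P := by
  rw [one_sub_evenProj, evenProj, oddProj, ← smul_sub]
  have : (1 + P - (1 - P) : Module.End K V) = (2 : K) • P := by rw [two_smul]; abel
  rw [this, smul_smul, inv_mul_cancel₀ two_ne_zero, one_smul]

theorem evenProj_even {x : V} (hx : x ∈ evenPart P) : evenProj P x = x := by
  rw [mem_evenPart] at hx
  rw [evenProj, LinearMap.smul_apply, LinearMap.add_apply, Module.End.one_apply, hx, ← two_smul K,
    smul_smul, inv_mul_cancel₀ two_ne_zero, one_smul]

theorem evenProj_odd {x : V} (hx : x ∈ oddPart P) : evenProj P x = 0 := by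
  rw [mem_oddPart] at hx
  rw [evenProj, LinearMap.smul_apply, LinearMap.add_apply, Module.End.one_apply, hx,
    add_neg_cancel, smul_zero]

theorem evenProj_mem (h : P * P = 1) (x : V) : evenProj P x ∈ evenPart P := by
  rw [mem_evenPart, evenProj, LinearMap.smul_apply, LinearMap.add_apply, Module.End.one_apply,
    map_smul, map_add, ← Module.End.mul_apply, h, Module.End.one_apply, add_comm]

theorem oddProj_mem (h : P * P = 1) (x : V) : oddProj P x ∈ oddPart P := by
  rw [mem_oddPart, oddProj, LinearMap.smul_apply, LinearMap.sub_apply, Module.End.one_apply,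
    map_smul, map_sub, ← Module.End.mul_apply, h, Module.End.one_apply, ← smul_neg, neg_sub]

theorem evenProj_add_oddProj (x : V) : evenProj P x + oddProj P x = x := by
  rw [← one_sub_evenProj, LinearMap.sub_apply, Module.End.one_apply]
  abel

/-- An operator which is the identity on the even part and zero on the odd part. -/
theorem eq_evenProj (h : P * P = 1) {a : Module.End K V} (h1 : ∀ x ∈ evenPart P, a x = x)
    (h2 : ∀ x ∈ oddPart P, a x = 0) : a = evenProj P := by
  ext x
  conv_lhs => rw [← evenProj_add_oddProj (P := P) x]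
  rw [map_add, h1 _ (evenProj_mem h x), h2 _ (oddProj_mem h x), add_zero]

/-- **Descent to the integers.** -/
theorem exists_int [Module.Finite K V] (h : EvenRing P A)
    (hK : evenProj P ∈ Submodule.span K A) : ∃ m : ℕ, m ≠ 0 ∧ (m : K) • evenProj P ∈ A := by
  let S : Subalgebra K (Module.End K V) :=
    (Submodule.span K A).toSubalgebra (span_one h) (fun a b ha hb => span_mul h a ha b hb)
  have hS : ∀ x, x ∈ S ↔ x ∈ Submodule.span K A := fun x => Iff.rfl
  let B : Set S := {x | ∃ m : ℕ, m ≠ 0 ∧ (m : K) • (x : Module.End K V) ∈ A}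
  have key : (⟨evenProj P, hK⟩ : S) ∈ B := by
    apply Pool.Agent.TH133.PW.central_idem_mem (K := K) (V := V) (A := B)
      ⟨1, one_ne_zero, by simpa using h.one⟩ ?_ ?_ ?_ ?_ S.val Subtype.val_injective
      ?_ ?_ ?_
    · rintro x ⟨m, hm, hx⟩ y ⟨n, hn, hy⟩
      refine ⟨m * n, Nat.mul_ne_zero hm hn, ?_⟩
      have e1 := h.smul_nat n hx
      have e2 := h.smul_nat m hy
      have e3 := h.add _ e1 _ e2
      rw [smul_smul, smul_smul] at e3
      rw [show ((x + y : S) : Module.End K V) = x + y from rfl, smul_add]
      push_cast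
      rw [mul_comm (m : K) n] at *
      exact e3
    · rintro q x ⟨m, hm, hx⟩
      refine ⟨m * q.den, Nat.mul_ne_zero hm q.den_nz, ?_⟩
      have e1 := h.smul_int q.num hx
      have e2 : ((m * q.den : ℕ) : K) • ((q : K) • (x : Module.End K V)) =
          (q.num : K) • ((m : K) • (x : Module.End K V)) := by
        rw [smul_smul, smul_smul]
        congr 1
        have hq : (q : K) * q.den = q.num := by
          have := Rat.mul_den_eq_num q
          exact_mod_cast congrArg (fun z : ℚ => (z : K)) this
        push_cast
        rw [mul_assoc, mul_comm (q.den : K), hq, mul_comm]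
      rw [show (((q : K) • x : S) : Module.End K V) = (q : K) • (x : Module.End K V) from rfl, e2]
      exact e1
    · rintro x ⟨m, hm, hx⟩ y ⟨n, hn, hy⟩
      refine ⟨m * n, Nat.mul_ne_zero hm hn, ?_⟩
      have e1 := h.mul _ hx _ hy
      rw [smul_mul_assoc, mul_smul_comm, smul_smul] at e1
      push_cast
      exact e1
    · rw [eq_top_iff]
      rintro ⟨y, hy⟩ -
      have hy' : y ∈ Submodule.span K A := hy
      have key : ∀ y (hy : y ∈ Submodule.span K A), (⟨y, hy⟩ : S) ∈ Submodule.span K B := by
        intro y hy
        induction hy using Submodule.span_induction with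
        | mem y hy => exact Submodule.subset_span ⟨1, one_ne_zero, by simpa using hy⟩
        | zero => exact Submodule.zero_mem _
        | add x y _ _ h1 h2 => exact Submodule.add_mem _ h1 h2
        | smul a x _ h1 => exact Submodule.smul_mem _ a h1
      exact key y hy'
    · exact Subtype.ext (evenProj_idem h.sq)
    · rintro ⟨x, hx⟩
      apply Subtype.ext
      show evenProj P * x = x * evenProj P
      have := span_comm h x hx
      rw [evenProj, smul_mul_assoc, mul_smul_comm, add_mul, mul_add, one_mul, mul_one, this]
    · rintro ⟨x, hx'⟩ ⟨m, hm, hx⟩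
      obtain ⟨n, hn⟩ := h.str _ hx
      refine ⟨n / m, ?_⟩
      have e1 : S.val ((⟨evenProj P, hK⟩ : S) * ⟨x, hx'⟩) = evenProj P * x := rfl
      have e2 : S.val ((1 - (⟨evenProj P, hK⟩ : S)) * ⟨x, hx'⟩) = (1 - evenProj P) * x := rfl
      rw [e1, e2, ← map_sub, ← sub_mul, evenProj_sub, LinearMap.trace_mul_comm]
      have hm' : (m : K) ≠ 0 := by exact_mod_cast hm
      have e3 : LinearMap.trace K V (((m : K) • x) * P) = m * LinearMap.trace K V (x * P) := by
        rw [smul_mul_assoc, map_smul, smul_eq_mul]
      have hn' : LinearMap.trace K V (((m : K) • x) * P) = n := hn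
      rw [e3] at hn'
      push_cast
      rw [← hn', mul_div_cancel_left₀ _ hm']
  exact key

end Main

end Pool.Agent.X279.NK
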