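import Pool.Agent.X279.NK.Tfae
import Pool.Agent.X279.NK.Newt

/-!
# The parity operator and supertraces of powers
-/

set_option autoImplicit false
set_option linter.unusedSectionVars false

open Polynomial

namespace Pool.Agent.X279.NK

section Newton

variable {ι K : Type*} [Fintype ι] [DecidableEq ι] [Field K] [CharZero K]

/-- The traces of the powers up to the size determine the characteristic polynomial. -/
theorem charpoly_eq_of_traces_le (A B : Matrix ι ι K)
    (h : ∀ k : ℕ, 1 ≤ k → k ≤ Fintype.card ι → (A ^ k).trace = (B ^ k).trace) :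
    A.charpoly = B.charpoly := by
  have h1 : ∀ k, k ≤ Fintype.card ι → A.charpolyRev.coeff k = B.charpolyRev.coeff k := by
    intro k
    induction k using Nat.strong_induction_on with
    | _ k ih =>
      intro hk0
      rcases k with _ | k
      · rw [coeff_zero_eq_eval_zero, coeff_zero_eq_eval_zero, Matrix.eval_charpolyRev,
          Matrix.eval_charpolyRev]
      · have hk : ((k : K) + 1) ≠ 0 := by exact_mod_cast Nat.succ_ne_zero k
        refine mul_right_cancel₀ hk ?_
        rw [Newt.newton, Newt.newton]
        congr 1
        refine Finset.sum_congr rfl fun p hp => ?_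
        have h3 := (Finset.HasAntidiagonal.mem_antidiagonal.mp hp)
        rw [ih p.1 (by omega) (by omega), h _ (by omega) (by omega)]
  have hdeg : ∀ M : Matrix ι ι K, ∀ k, Fintype.card ι < k → M.charpolyRev.coeff k = 0 := by
    intro M k hk
    rw [← Matrix.reverse_charpoly]
    apply coeff_eq_zero_of_natDegree_lt
    refine lt_of_le_of_lt (reverse_natDegree_le _) ?_
    rwa [Matrix.charpoly_natDegree_eq_dim]
  have h2 : A.charpolyRev = B.charpolyRev := by
    refine Polynomial.ext fun k => ?_
    by_cases hk : k ≤ Fintype.card ι
    · exact h1 k hk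
    · rw [hdeg A k (by omega), hdeg B k (by omega)]
  rw [← Matrix.reverse_charpoly, ← Matrix.reverse_charpoly] at h2
  have hd : A.charpoly.natDegree = B.charpoly.natDegree := by
    rw [Matrix.charpoly_natDegree_eq_dim, Matrix.charpoly_natDegree_eq_dim]
  unfold reverse at h2
  rw [hd] at h2
  have h4 := congrArg (reflect B.charpoly.natDegree) h2
  rw [reflect_reflect, reflect_reflect] at h4
  exact h4

end Newton

section

variable {K V : Type*} [Field K] [CharZero K] [AddCommGroup V] [Module K V] [Module.Finite K V]

theorem end_charpoly_eq (S T : Module.End K V)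
    (h : ∀ k : ℕ, 1 ≤ k → k ≤ Module.finrank K V →
      LinearMap.trace K V (S ^ k) = LinearMap.trace K V (T ^ k)) :
    LinearMap.charpoly S = LinearMap.charpoly T := by
  classical
  let b := Module.finBasis K V
  rw [← LinearMap.charpoly_toMatrix S b, ← LinearMap.charpoly_toMatrix T b]
  apply charpoly_eq_of_traces_le
  intro k hk1 hk2
  rw [Fintype.card_fin] at hk2
  have e : ∀ U : Module.End K V, (LinearMap.toMatrix b b U ^ k).trace =
      LinearMap.trace K V (U ^ k) := by
    intro U
    rw [LinearMap.toMatrix_pow, ← LinearMap.trace_eq_matrix_trace]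
  rw [e, e]
  exact h k hk1 hk2

variable {P : Module.End K V} {A : Set (Module.End K V)}

theorem oddProj_even {x : V} (hx : x ∈ evenPart P) : oddProj P x = 0 := by
  rw [← one_sub_evenProj, LinearMap.sub_apply, Module.End.one_apply, evenProj_even hx, sub_self]

theorem oddProj_odd {x : V} (hx : x ∈ oddPart P) : oddProj P x = x := by
  rw [← one_sub_evenProj, LinearMap.sub_apply, Module.End.one_apply, evenProj_odd hx, sub_zero]

theorem isCompl_parts (h : P * P = 1) : IsCompl (evenPart P) (oddPart P) := by
  constructor
  · rw [Submodule.disjoint_def]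
    intro x hx hy
    rw [← evenProj_even hx, evenProj_odd hy]
  · rw [codisjoint_iff, eq_top_iff]
    intro x _
    rw [← evenProj_add_oddProj (P := P) x]
    exact Submodule.add_mem_sup (evenProj_mem h x) (oddProj_mem h x)

theorem finrank_parts (h : P * P = 1) :
    Module.finrank K (evenPart P) + Module.finrank K (oddPart P) = Module.finrank K V :=
  Submodule.finrank_add_eq_of_isCompl (isCompl_parts h)

theorem trace_evenProj (h : P * P = 1) :
    LinearMap.trace K V (evenProj P) = Module.finrank K (evenPart P) := by
  have hp : LinearMap.IsProj (evenPart P) (evenProj P) :=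
    ⟨fun x => evenProj_mem h x, fun x hx => evenProj_even hx⟩
  exact hp.trace

theorem trace_oddProj (h : P * P = 1) :
    LinearMap.trace K V (oddProj P) = Module.finrank K (oddPart P) := by
  have hp : LinearMap.IsProj (oddPart P) (oddProj P) :=
    ⟨fun x => oddProj_mem h x, fun x hx => oddProj_odd hx⟩
  exact hp.trace

theorem parity_eq : P = evenProj P - oddProj P := by
  rw [← one_sub_evenProj, evenProj_sub]

/-- An operator `T` which commutes with the projector `E`, and is `c` on the complement. -/
theorem gen_le {T : Module.End K V} {U W : Submodule K V} (hUW : IsCompl U W)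
    (hU : ∀ x ∈ U, T x ∈ U) {c μ : K} (hW : ∀ y ∈ W, T y = c • y) (hc : c ≠ μ)
    (hd : Module.finrank K U ≤ Module.finrank K (T.maxGenEigenspace μ)) :
    ∀ x ∈ U, ((T - algebraMap K _ μ) ^ Module.finrank K V) x = 0 := by
  have hle : T.maxGenEigenspace μ ≤ U := by
    intro z hz
    rw [Module.End.maxGenEigenspace_eq_genEigenspace_finrank,
      Module.End.mem_genEigenspace_nat] at hz
    obtain ⟨x, hx, y, hy, rfl⟩ := Submodule.mem_sup.1
      (show z ∈ U ⊔ W by rw [hUW.sup_eq_top]; trivial)
    have hT : ∀ y ∈ W, ∀ k : ℕ, ((T - μ • 1) ^ k) y = (c - μ) ^ k • y := by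
      intro y hy k
      induction k with
      | zero => simp
      | succ k ih =>
        rw [pow_succ, Module.End.mul_apply, LinearMap.sub_apply, hW y hy, LinearMap.smul_apply,
          Module.End.one_apply, ← sub_smul, map_smul, ih, smul_smul, pow_succ']
    have hTU : ∀ x ∈ U, ∀ k : ℕ, ((T - μ • 1) ^ k) x ∈ U := by
      intro x hx k
      induction k generalizing x with
      | zero => exact hx
      | succ k ih =>
        rw [pow_succ, Module.End.mul_apply]
        apply ih
        rw [LinearMap.sub_apply, LinearMap.smul_apply, Module.End.one_apply]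
        exact U.sub_mem (hU x hx) (U.smul_mem _ hx)
    rw [LinearMap.mem_ker, map_add, hT y hy] at hz
    have h1 := hTU x hx (Module.finrank K V)
    have h2 : (c - μ) ^ Module.finrank K V • y ∈ U := by
      rw [eq_neg_of_add_eq_zero_right hz]
      exact U.neg_mem h1
    have h3 : (c - μ) ^ Module.finrank K V • y = 0 := by
      have := Submodule.disjoint_def.1 hUW.disjoint _ h2 (W.smul_mem _ hy)
      exact this
    have h4 : y = 0 := by
      rcases smul_eq_zero.1 h3 with h5 | h5
      · exact absurd h5 (pow_ne_zero _ (sub_ne_zero.2 hc))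
      · exact h5
    rw [h4, add_zero]
    exact hx
  have heq : T.maxGenEigenspace μ = U := Submodule.eq_of_le_of_finrank_le hle hd
  intro x hx
  rw [← heq, Module.End.maxGenEigenspace_eq_genEigenspace_finrank,
      Module.End.mem_genEigenspace_nat, LinearMap.mem_ker] at hx
  rw [Algebra.algebraMap_eq_smul_one]
  exact hx

end

end Pool.Agent.X279.NK
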