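import Pool.Agent.X279.NK.Lin

/-!
# Equivalent forms of the algebraicity of the parity operator
-/

set_option autoImplicit false
set_option linter.unusedSectionVars false

open Polynomial

namespace Pool.Agent.X279.NK

section

variable {K V : Type*} [Field K] [AddCommGroup V] [Module K V]

/-- The operator `a` preserves the even and the odd part, and its characteristic polynomials on the
two parts are coprime. -/
def CoprimeParts (P a : Module.End K V) [Module.Finite K (evenPart P)]
    [Module.Finite K (oddPart P)] : Prop :=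
  ∃ (h1 : ∀ x ∈ evenPart P, a x ∈ evenPart P) (h2 : ∀ x ∈ oddPart P, a x ∈ oddPart P),
    IsCoprime (LinearMap.charpoly (a.restrict h1)) (LinearMap.charpoly (a.restrict h2))

theorem aeval_restrict {a : Module.End K V} {U : Submodule K V} (h : ∀ x ∈ U, a x ∈ U) (p : K[X])
    (x : U) : ((aeval (a.restrict h) p x : U) : V) = aeval a p (x : V) := by
  induction p using Polynomial.induction_on' with
  | add p q hp hq =>
    rw [map_add, map_add, LinearMap.add_apply, LinearMap.add_apply, Submodule.coe_add, hp, hq]
  | monomial n c =>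
    rw [aeval_monomial, aeval_monomial, Module.End.mul_apply, Module.End.mul_apply,
      Module.algebraMap_end_apply, Module.algebraMap_end_apply, Submodule.coe_smul]
    congr 1
    induction n generalizing x with
    | zero => simp
    | succ n ih => 
      rw [pow_succ, pow_succ, Module.End.mul_apply, Module.End.mul_apply, ih]
      rfl

end

section Main

variable {K V : Type*} [Field K] [CharZero K] [AddCommGroup V] [Module K V] [Module.Finite K V]
  {P : Module.End K V} {A : Set (Module.End K V)}

theorem aeval_mem_span (h : EvenRing P A) {a : Module.End K V} (ha : a ∈ Submodule.span K A)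
    (p : K[X]) : aeval a p ∈ Submodule.span K A := by
  induction p using Polynomial.induction_on with
  | C c =>
    rw [aeval_C, Algebra.algebraMap_eq_smul_one]
    exact Submodule.smul_mem _ _ (span_one h)
  | add p q hp hq => rw [map_add]; exact Submodule.add_mem _ hp hq
  | monomial n c hn =>
    rw [pow_succ, ← mul_assoc, map_mul, aeval_X]
    exact span_mul h _ hn _ ha

theorem span_of_coprime (h : EvenRing P A) {a : Module.End K V} (ha : a ∈ Submodule.span K A)
    (hc : CoprimeParts P a) : evenProj P ∈ Submodule.span K A := by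
  obtain ⟨h1, h2, u, v, huv⟩ := hc
  have key : aeval a (v * LinearMap.charpoly (a.restrict h2)) = evenProj P := by
    apply eq_evenProj h.sq
    · intro x hx
      have e1 : aeval a (u * LinearMap.charpoly (a.restrict h1) +
          v * LinearMap.charpoly (a.restrict h2)) x = x := by
        rw [huv, map_one, Module.End.one_apply]
      have e2 : aeval a (u * LinearMap.charpoly (a.restrict h1)) x = 0 := by
        rw [map_mul, Module.End.mul_apply]
        have := aeval_restrict h1 (LinearMap.charpoly (a.restrict h1)) ⟨x, hx⟩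
        rw [LinearMap.aeval_self_charpoly] at this
        rw [← this, LinearMap.zero_apply, Submodule.coe_zero, map_zero]
      rw [map_add, LinearMap.add_apply, e2, zero_add] at e1
      exact e1
    · intro x hx
      rw [map_mul, Module.End.mul_apply]
      have := aeval_restrict h2 (LinearMap.charpoly (a.restrict h2)) ⟨x, hx⟩
      rw [LinearMap.aeval_self_charpoly] at this
      rw [← this, LinearMap.zero_apply, Submodule.coe_zero, map_zero]
  rw [← key]
  exact aeval_mem_span h ha _

theorem coprime_of_int (h : EvenRing P A) {m : ℕ} (hm : m ≠ 0) (hA : (m : K) • evenProj P ∈ A) :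
    ∃ a ∈ A, CoprimeParts P a := by
  refine ⟨_, hA, h.even hA, h.odd hA, ?_⟩
  have e1 : (((m : K) • evenProj P).restrict (h.even hA) : Module.End K (evenPart P)) =
      0 - (-(m : K)) • 1 := by
    ext x
    have : (((m : K) • evenProj P).restrict (h.even hA) x : evenPart P) = (m : K) • x := by
      apply Subtype.ext
      show ((m : K) • evenProj P) (x : V) = (m : K) • (x : V)
      rw [LinearMap.smul_apply, evenProj_even x.2]
    rw [this]
    simp
  have e2 : (((m : K) • evenProj P).restrict (h.odd hA) : Module.End K (oddPart P)) = 0 := by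
    ext x
    show ((m : K) • evenProj P) (x : V) = 0
    rw [LinearMap.smul_apply, evenProj_odd x.2, smul_zero]
  rw [e1, e2, LinearMap.charpoly_sub_smul, LinearMap.charpoly_zero, LinearMap.charpoly_zero,
    pow_comp, X_comp]
  apply IsCoprime.pow
  refine ⟨C (-(m : K)⁻¹), C ((m : K)⁻¹), ?_⟩
  have hm' : (m : K) ≠ 0 := by exact_mod_cast hm
  have : C (-(m : K)⁻¹) * (X + C (-(m : K))) + C ((m : K)⁻¹) * X =
      C ((m : K)⁻¹ * m) := by
    simp only [map_neg, map_mul]
    ring
  rw [this, inv_mul_cancel₀ hm', C_1]

/-- Combinations with coefficients in a subfield are combinations. -/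
theorem span_subfield (F : Subfield K) {φ : Module.End K V} (h : φ ∈ Submodule.span F A) :
    φ ∈ Submodule.span K A := by
  induction h using Submodule.span_induction with
  | mem x hx => exact Submodule.subset_span hx
  | zero => exact Submodule.zero_mem _
  | add x y _ _ h1 h2 => exact Submodule.add_mem _ h1 h2
  | smul a x _ h1 => exact Submodule.smul_mem _ (a : K) h1

theorem span_of_int (F : Subfield K) {m : ℕ} (hm : m ≠ 0) (hA : (m : K) • evenProj P ∈ A) :
    evenProj P ∈ Submodule.span F A := by
  have hm' : (m : K) ≠ 0 := by exact_mod_cast hm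
  have h1 : evenProj P = ((m : F)⁻¹ : F) • ((m : K) • evenProj P) := by
    rw [Subfield.smul_def, smul_smul]
    push_cast
    rw [inv_mul_cancel₀ hm', one_smul]
  rw [h1]
  exact Submodule.smul_mem _ _ (Submodule.subset_span hA)

theorem oddProj_mem_span (F : Subfield K) (h : EvenRing P A) (h1 : evenProj P ∈ Submodule.span F A) :
    oddProj P ∈ Submodule.span F A := by
  rw [← one_sub_evenProj]
  exact Submodule.sub_mem _ (Submodule.subset_span h.one) h1

/-- For all even `x` and odd `y` there is a combination `φ`, which may depend on `x` and `y`, with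
`φ x = x` and `φ y = 0`. -/
def SeparatesPairs (P : Module.End K V) (A : Set (Module.End K V)) : Prop :=
  ∀ x ∈ evenPart P, ∀ y ∈ oddPart P, ∃ φ ∈ Submodule.span K A, φ x = x ∧ φ y = 0

/-- If `ξ (a x) + η (a y) = 0` for all `a` in `A`, for an even `x`, an odd `y` and linear forms `ξ`
and `η`, then `ξ x = 0`. -/
def DetectsPairs (P : Module.End K V) (A : Set (Module.End K V)) : Prop :=
  ∀ x ∈ evenPart P, ∀ y ∈ oddPart P, ∀ ξ η : V →ₗ[K] K,
    (∀ a ∈ A, ξ (a x) + η (a y) = 0) → ξ x = 0

/-- Each subspace of `V` which is stable under the operators in `A` is stable under the parity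
operator, that is, the sum of an even and an odd subspace. -/
def StableGraded (P : Module.End K V) (A : Set (Module.End K V)) : Prop :=
  ∀ N : Submodule K V, (∀ a ∈ A, ∀ x ∈ N, a x ∈ N) → ∀ x ∈ N, P x ∈ N

theorem separates_of_detects (h : DetectsPairs P A) : SeparatesPairs P A := by
  intro x hx y hy
  let M : Submodule K (V × V) := (Submodule.span K A).map
    ((LinearMap.applyₗ x).prod (LinearMap.applyₗ y))
  by_contra hcon
  have hnot : ((x, 0) : V × V) ∉ M := by
    rintro ⟨φ, hφ, hφy⟩
    have h1 : φ x = x := congrArg Prod.fst hφy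
    have h2 : φ y = 0 := congrArg Prod.snd hφy
    exact hcon ⟨φ, hφ, h1, h2⟩
  obtain ⟨f, hf, hfM⟩ := Submodule.exists_le_ker_of_notMem hnot
  apply hf
  have hff : ∀ a b, f (a, b) = (f ∘ₗ LinearMap.inl K V V) a + (f ∘ₗ LinearMap.inr K V V) b := by
    intro a b
    rw [LinearMap.comp_apply, LinearMap.comp_apply, ← map_add]
    simp
  rw [hff, map_zero, add_zero]
  apply h x hx y hy _ (f ∘ₗ LinearMap.inr K V V)
  intro a ha
  rw [← hff]
  exact hfM ⟨a, Submodule.subset_span ha, rfl⟩

theorem detects_of_span (hK : evenProj P ∈ Submodule.span K A) : DetectsPairs P A := by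
  intro x hx y hy ξ η h
  have key : ∀ φ ∈ Submodule.span K A, ξ (φ x) + η (φ y) = 0 := by
    intro φ hφ
    induction hφ using Submodule.span_induction with
    | mem a ha => exact h a ha
    | zero => simp
    | add a b _ _ h1 h2 =>
      rw [LinearMap.add_apply, LinearMap.add_apply, map_add, map_add]
      linear_combination h1 + h2
    | smul c a _ h1 =>
      rw [LinearMap.smul_apply, LinearMap.smul_apply, map_smul, map_smul, ← smul_add, h1,
        smul_zero]
  have := key _ hK
  rwa [evenProj_even hx, evenProj_odd hy, map_zero, add_zero] at this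

theorem stable_of_span (hK : evenProj P ∈ Submodule.span K A) : StableGraded P A := by
  intro N hN x hx
  have key : ∀ φ ∈ Submodule.span K A, φ x ∈ N := by
    intro φ hφ
    induction hφ using Submodule.span_induction with
    | mem a ha => exact hN a ha x hx
    | zero => exact N.zero_mem
    | add a b _ _ h1 h2 => exact N.add_mem h1 h2
    | smul c a _ h1 => exact N.smul_mem _ h1
  rw [← evenProj_sub (P := P), LinearMap.sub_apply, LinearMap.sub_apply, Module.End.one_apply]
  exact N.sub_mem (key _ hK) (N.sub_mem hx (key _ hK))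

theorem separates_of_stable (h : EvenRing P A) (hs : StableGraded P A) : SeparatesPairs P A := by
  intro x hx y hy
  let N : Submodule K V := (Submodule.span K A).map (LinearMap.applyₗ (x + y))
  have hN : ∀ z, z ∈ N ↔ ∃ φ ∈ Submodule.span K A, φ (x + y) = z := fun z => Iff.rfl
  have h1 : x + y ∈ N := (hN _).2 ⟨1, span_one h, rfl⟩
  have h2 : P (x + y) ∈ N := by
    apply hs N ?_ _ h1
    intro a ha z hz
    obtain ⟨φ, hφ, rfl⟩ := (hN _).1 hz
    exact (hN _).2 ⟨a * φ, span_mul h a (Submodule.subset_span ha) φ hφ, rfl⟩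
  rw [map_add, mem_evenPart.1 hx, mem_oddPart.1 hy] at h2
  have h3 : (2 : K)⁻¹ • ((x + y) + (x + -y)) ∈ N := N.smul_mem _ (N.add_mem h1 h2)
  have h4 : (2 : K)⁻¹ • ((x + y) + (x + -y)) = x := by
    have : (x + y) + (x + -y) = (2 : K) • x := by rw [two_smul]; abel
    rw [this, smul_smul, inv_mul_cancel₀ two_ne_zero, one_smul]
  rw [h4] at h3
  obtain ⟨φ, hφ, hφx⟩ := (hN _).1 h3
  have e1 : φ x ∈ evenPart P := span_even h φ hφ x hx
  have e2 : φ y ∈ oddPart P := span_odd h φ hφ y hy
  rw [map_add] at hφx
  have e3 := congrArg (evenProj P) hφx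
  rw [map_add, evenProj_even e1, evenProj_odd e2, add_zero, evenProj_even hx] at e3
  refine ⟨φ, hφ, e3, ?_⟩
  rw [e3] at hφx
  simpa using hφx

/-- Tominaga's argument. -/
theorem exists_uniform {B : Submodule K (Module.End K V)} {U : Submodule K V}
    (h2 : ∀ a ∈ B, ∀ b ∈ B, a * (1 - b) ∈ B) (hU : ∀ b ∈ B, ∀ y ∈ U, b y ∈ U)
    (h : ∀ y ∈ U, ∃ a ∈ B, a y = y) : ∃ a ∈ B, ∀ y ∈ U, a y = y := by
  have key : ∀ (m : ℕ) (y : Fin m → V), (∀ i, y i ∈ U) → ∃ a ∈ B, ∀ i, a (y i) = y i := by
    intro m
    induction m with
    | zero => exact fun y _ => ⟨0, Submodule.zero_mem _, fun i => i.elim0⟩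
    | succ m ih =>
      intro y hy
      obtain ⟨a₁, ha₁, h₁⟩ := h (y 0) (hy 0)
      obtain ⟨a₂, ha₂, h₂⟩ := ih (fun i => (1 - a₁) (y i.succ))
        (fun i => Submodule.sub_mem _ (hy _) (hU _ ha₁ _ (hy _)))
      refine ⟨a₁ + a₂ * (1 - a₁), Submodule.add_mem _ ha₁ (h2 _ ha₂ _ ha₁), ?_⟩
      intro i
      refine Fin.cases ?_ (fun i => ?_) i
      · have e : (1 - a₁) (y 0) = 0 := by
          rw [LinearMap.sub_apply, Module.End.one_apply, h₁, sub_self]
        rw [LinearMap.add_apply, Module.End.mul_apply, e, map_zero, add_zero, h₁]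
      · have := h₂ i
        rw [LinearMap.add_apply, Module.End.mul_apply, this, LinearMap.sub_apply,
          Module.End.one_apply, add_sub_cancel]
  obtain ⟨m, s, hs⟩ := Submodule.fg_iff_exists_fin_generating_family.1
    (IsNoetherian.noetherian U)
  obtain ⟨a, ha, h'⟩ := key m s (fun i => hs ▸ Submodule.subset_span ⟨i, rfl⟩)
  refine ⟨a, ha, fun y hy => ?_⟩
  have : U ≤ LinearMap.eqLocus a 1 := by
    rw [← hs, Submodule.span_le]
    rintro _ ⟨i, rfl⟩
    exact h' i
  exact this hy

theorem span_of_separates (h : EvenRing P A) (hs : SeparatesPairs P A) :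
    evenProj P ∈ Submodule.span K A := by
  set B := Submodule.span K A with hB
  -- for each odd vector one operator for all even vectors
  have step : ∀ y ∈ oddPart P, ∃ a ∈ B, (∀ x ∈ evenPart P, a x = x) ∧ a y = 0 := by
    intro y hy
    obtain ⟨a, ha, hax⟩ := exists_uniform
      (B := B ⊓ LinearMap.ker (LinearMap.applyₗ (R := K) (M := V) (M₂ := V) y))
      (U := evenPart P)
      (by
        rintro a ⟨ha, ha'⟩ b ⟨hb, hb'⟩
        have ha'' : a y = 0 := ha'
        have hb'' : b y = 0 := hb'
        refine ⟨span_mul h _ ha _ (Submodule.sub_mem _ (span_one h) hb), ?_⟩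
        change (a * (1 - b)) y = 0
        rw [Module.End.mul_apply, LinearMap.sub_apply, Module.End.one_apply, hb'', sub_zero, ha''])
      (fun b hb x hx => span_even h b hb.1 x hx)
      (by
        intro x hx
        obtain ⟨a, ha, h1, h2⟩ := hs x hx y hy
        exact ⟨a, ⟨ha, h2⟩, h1⟩)
    exact ⟨a, ha.1, hax, ha.2⟩
  -- one operator for all
  obtain ⟨c, hc, hcy⟩ := exists_uniform
    (B := B ⊓ ⨅ x ∈ evenPart P, LinearMap.ker (LinearMap.applyₗ (R := K) (M := V) (M₂ := V) x))
    (U := oddPart P)
    (by
      rintro a ⟨ha, ha'⟩ b ⟨hb, hb'⟩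
      refine ⟨span_mul h _ ha _ (Submodule.sub_mem _ (span_one h) hb), ?_⟩
      have ha'' : ∀ y ∈ evenPart P, a y = 0 := by simpa using ha'
      have hb'' : ∀ y ∈ evenPart P, b y = 0 := by simpa using hb'
      have : ∀ y ∈ evenPart P, (a * (1 - b)) y = 0 := by
        intro y hy
        rw [Module.End.mul_apply, LinearMap.sub_apply, Module.End.one_apply, hb'' y hy, sub_zero,
          ha'' y hy]
      simpa using this)
    (fun b hb y hy => span_odd h b hb.1 y hy)
    (by
      intro y hy
      obtain ⟨a, ha, h1, h2⟩ := step y hy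
      refine ⟨1 - a, ⟨Submodule.sub_mem _ (span_one h) ha, ?_⟩, ?_⟩
      · have : ∀ x ∈ evenPart P, (1 - a) x = 0 := by
          intro x hx
          rw [LinearMap.sub_apply, Module.End.one_apply, h1 x hx, sub_self]
        simpa using this
      · rw [LinearMap.sub_apply, Module.End.one_apply, h2, sub_zero])
  have hc0 : ∀ x ∈ evenPart P, c x = 0 := by simpa using hc.2
  have : 1 - c = evenProj P := by
    apply eq_evenProj h.sq
    · intro x hx
      rw [LinearMap.sub_apply, Module.End.one_apply, hc0 x hx, sub_zero]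
    · intro x hx
      rw [LinearMap.sub_apply, Module.End.one_apply, hcy x hx, sub_self]
  rw [← this]
  exact Submodule.sub_mem _ (span_one h) hc.1

/-- **Equivalent forms.** -/
theorem main_tfae (h : EvenRing P A) (F : Subfield K) :
    List.TFAE [
      evenProj P ∈ Submodule.span F A ∧ oddProj P ∈ Submodule.span F A,
      evenProj P ∈ Submodule.span K A,
      ∃ m : ℕ, m ≠ 0 ∧ (m : K) • evenProj P ∈ A,
      ∃ a ∈ A, CoprimeParts P a,
      SeparatesPairs P A,
      DetectsPairs P A,
      StableGraded P A] := by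
  tfae_have 1 → 2 := fun h1 => span_subfield F h1.1
  tfae_have 2 → 3 := exists_int h
  tfae_have 3 → 1 := fun ⟨m, hm, hA⟩ =>
    ⟨span_of_int F hm hA, oddProj_mem_span F h (span_of_int F hm hA)⟩
  tfae_have 3 → 4 := fun ⟨m, hm, hA⟩ => coprime_of_int h hm hA
  tfae_have 4 → 2 := fun ⟨a, ha, hc⟩ => span_of_coprime h (Submodule.subset_span ha) hc
  tfae_have 2 → 6 := detects_of_span
  tfae_have 6 → 5 := separates_of_detects
  tfae_have 5 → 2 := span_of_separates h
  tfae_have 2 → 7 := stable_of_span
  tfae_have 7 → 5 := separates_of_stable h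
  tfae_finish

end Main

end Pool.Agent.X279.NK
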