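import Pool.Agent.H447R3.NcDefs

/-!
# Definitions for the statements on Weil cohomologies
-/

set_option autoImplicit false

universe u v

namespace Pool.Agent.X279.NK

section

variable {K V : Type*} [Field K] [AddCommGroup V] [Module K V] [Module.Finite K V]

/-- The operator `T` preserves the subspaces `U` and `U'`, and its characteristic polynomials on them
are coprime. -/
def CoprimeOn (U U' : Submodule K V) (T : Module.End K V) : Prop :=
  ∃ (h1 : ∀ x ∈ U, T x ∈ U) (h2 : ∀ x ∈ U', T x ∈ U'),
    IsCoprime (LinearMap.charpoly (T.restrict h1)) (LinearMap.charpoly (T.restrict h2))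

/-- Some linear combination of operators in `A` preserves the subspaces `U` and `U'`, with coprime
characteristic polynomials. -/
def CoprimeCombination (U U' : Submodule K V) (A : Set (Module.End K V)) : Prop :=
  ∃ T ∈ Submodule.span K A, CoprimeOn U U' T

end

open Pool.Agent.H914 Pool.Agent.H447 VarClass Obj WeilCohomology

variable {k : Type u} [Field k] {𝒱 : VarClass k} {ops : CycleOps 𝒱}

/-- The sum of the Betti numbers in even degrees. -/
noncomputable def evenBetti (W : WeilCohomology.{u, v} ops) (X : 𝒱.Obj) : ℕ :=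
  ∑ i ∈ Finset.range (2 * X.dim + 1), if Even i then Module.finrank W.K (W.gr X i) else 0

/-- The sum of the Betti numbers in odd degrees. -/
noncomputable def oddBetti (W : WeilCohomology.{u, v} ops) (X : 𝒱.Obj) : ℕ :=
  ∑ i ∈ Finset.range (2 * X.dim + 1), if Even i then 0 else Module.finrank W.K (W.gr X i)

/-- The even cohomology. -/
def evenH (W : WeilCohomology.{u, v} ops) (X : 𝒱.Obj) : Submodule W.K (W.H X) :=
  ⨆ (i : ℕ) (_ : Even i), W.gr X i

/-- The odd cohomology. -/
def oddH (W : WeilCohomology.{u, v} ops) (X : 𝒱.Obj) : Submodule W.K (W.H X) :=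
  ⨆ (i : ℕ) (_ : ¬ Even i), W.gr X i

/-- The operators on the cohomology induced by the rational cycles of codimension `dim X` on
`X × X`. -/
def cycOps (W : WeilCohomology.{u, v} ops) (X : 𝒱.Obj) : Set (Module.End W.K (W.H X)) :=
  {y | ∃ z, (X.prod X).IsCyc X.dim z ∧ W.corr (W.cl _ z) = y}

/-- The intersection number of a cycle of codimension `dim X` on `X × X` with the diagonal. -/
noncomputable def diagNumber (ops : CycleOps 𝒱) (X : 𝒱.Obj) (z : (X.prod X).Cycles) : ℚ :=
  X.V.degCycle (ops.pull (diag X) z)

/-- The cycle `e` of codimension `n = dim X` on `X × X` is a projector modulo numerical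
equivalence: `e ∘ e` and `e` have the same intersection numbers with all cycles of codimension
`n`. -/
def IsNumProjector (ops : CycleOps 𝒱) (X : 𝒱.Obj) (e : (X.prod X).Cycles) : Prop :=
  (X.prod X).IsCyc X.dim e ∧ NumEquiv ops (X.prod X) X.dim (compCyc ops e e) e

/-- The powers `u, u ∘ u, ...` of a correspondence: `cycPow ops u m` is the power with exponent
`m + 1`. -/
noncomputable def cycPow (ops : CycleOps 𝒱) {X : 𝒱.Obj} (u : (X.prod X).Cycles) :
    ℕ → (X.prod X).Cycles
  | 0 => u
  | m + 1 => compCyc ops (cycPow ops u m) u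

/-- The cycle `u` has `b⁺ + b⁻` intersection numbers like the difference of the even and the odd
Künneth projector: the intersection number of the `k`-th power of `u` with the diagonal is
`b⁺ - (-1) ^ k b⁻` for all `1 ≤ k ≤ b⁺ + b⁻`. -/
def PowerNumbers (W : WeilCohomology.{u, v} ops) (X : 𝒱.Obj) (u : (X.prod X).Cycles) : Prop :=
  ∀ m : ℕ, m < evenBetti W X + oddBetti W X → diagNumber ops X (cycPow ops u m) =
    (evenBetti W X : ℚ) - (-1) ^ (m + 1) * oddBetti W X

end Pool.Agent.X279.NK
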