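import Pool.Agent.X279.NK.Two
import Pool.Agent.X279.NK.WDefs
import Pool.Agent.X310.Cen

/-!
# Two Weil cohomologies: the even Künneth projector
-/

set_option autoImplicit false
set_option linter.unusedSectionVars false

universe u v

namespace Pool.Agent.X279.NK

open Pool.Agent.H914 Pool.Agent.H447 Pool.Agent.X310 VarClass Obj WeilCohomology

variable {k : Type u} [Field k] {𝒱 : VarClass k} {ops : CycleOps 𝒱}

theorem ratneg_smul {K V : Type*} [Field K] [CharZero K] [AddCommGroup V] [Module K V]
    (a : Module.End K V) : ((-1 : ℚ) : K) • a = -a := by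
  rw [Rat.cast_neg, Rat.cast_one, neg_smul, one_smul]

section

variable (W W' : WeilCohomology.{u, v} ops) (X : 𝒱.Obj)

/-- The operators on the cohomology induced by rational cycles of degree zero. -/
def rops : Set (Module.End W.K (W.H X)) := {y | ROp W X 0 y}

/-- The pairs of operators induced by one rational cycle on two cohomologies. -/
def pairs : Subring (Module.End W.K (W.H X) × Module.End W'.K (W'.H X)) where
  carrier := {p | relOp X W W' p.1 p.2}
  mul_mem' := by
    rintro ⟨a, b⟩ ⟨c, d⟩ h h'
    exact (relOp_pairRel X W W').mul h h'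
  one_mem' := (relOp_pairRel X W W').one
  add_mem' := by
    rintro ⟨a, b⟩ ⟨c, d⟩ h h'
    exact (relOp_pairRel X W W').add h h'
  zero_mem' := by
    have h := (relOp_pairRel X W W').smul 0 (relOp_pairRel X W W').one
    simpa using h
  neg_mem' := by
    rintro ⟨a, b⟩ h
    have h := (relOp_pairRel X W W').smul (-1) h
    have e1 : ((-1 : ℚ) : W.K) • a = -a := ratneg_smul a
    have e2 : ((-1 : ℚ) : W'.K) • b = -b := ratneg_smul b
    change relOp X W W' (-a) (-b)
    rw [← e1, ← e2]
    exact h

/-- The first projection. -/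
def pr1 : pairs W W' X →+* Module.End W.K (W.H X) := (RingHom.fst _ _).comp (pairs W W' X).subtype

/-- The second projection. -/
def pr2 : pairs W W' X →+* Module.End W'.K (W'.H X) :=
  (RingHom.snd _ _).comp (pairs W W' X).subtype

theorem range_pr1 : Set.range (pr1 W W' X) = rops W X := by
  ext y
  constructor
  · rintro ⟨⟨p, Y, hY, h1, h2⟩, rfl⟩
    exact ⟨Y, hY, h1⟩
  · rintro ⟨Y, hY, rfl⟩
    exact ⟨⟨(Y W, Y W'), Y, hY, rfl, rfl⟩, rfl⟩

theorem range_pr2 : Set.range (pr2 W W' X) = rops W' X := by
  ext y
  constructor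
  · rintro ⟨⟨p, Y, hY, h1, h2⟩, rfl⟩
    exact ⟨Y, hY, h2⟩
  · rintro ⟨Y, hY, rfl⟩
    exact ⟨⟨(Y W, Y W'), Y, hY, rfl, rfl⟩, rfl⟩

theorem evenRing_rops : EvenRing (par (W.isInternal X)) (rops W X) where
  sq := par_mul_par (W.isInternal X)
  one := rop_opAlg.one
  add _ ha _ hb := rop_opAlg.add ha hb
  neg a ha := by
    have h := rop_opAlg.smul (-1) ha
    have e1 : ((-1 : ℚ) : W.K) • a = -a := ratneg_smul a
    rw [e1] at h
    exact h
  mul _ ha _ hb := rop_mul ha hb
  comm _ ha := (par_comm_rop ha).symm
  str a ha := by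
    obtain ⟨q, hq⟩ := rop_str a ha
    exact ⟨q, by rw [LinearMap.trace_mul_comm, hq]⟩

theorem sameTraces_weil :
    SameTraces (par (W.isInternal X)) (par (W'.isInternal X)) (pr1 W W' X) (pr2 W W' X) where
  ring := by rw [range_pr1]; exact evenRing_rops W X
  ring' := by rw [range_pr2]; exact evenRing_rops W' X
  same := by
    rintro ⟨p, hp⟩
    obtain ⟨q, h1, h2⟩ := (relOp_pairRel X W W').tr hp
    refine ⟨q, ?_, ?_⟩
    · rw [LinearMap.trace_mul_comm]; exact h1
    · rw [LinearMap.trace_mul_comm]; exact h2

theorem isEvenProj_iff_eq {T : Module.End W.K (W.H X)} :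
    IsEvenProj (W.gr X) T ↔ T = NK.evenProj (par (W.isInternal X)) := by
  have key : ∀ j, ∀ a ∈ W.gr X j, NK.evenProj (par (W.isInternal X)) a =
      if Even j then a else 0 := by
    intro j a ha
    rw [NK.evenProj, LinearMap.smul_apply, LinearMap.add_apply, Module.End.one_apply, par,
      scal_apply _ _ ha]
    split_ifs with hj
    · rw [hj.neg_one_pow, one_smul, ← two_smul W.K a, smul_smul, inv_mul_cancel₀ two_ne_zero,
        one_smul]
    · rw [(Nat.not_even_iff_odd.1 hj).neg_one_pow, neg_one_smul, add_neg_cancel, smul_zero]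
  constructor
  · intro h
    apply gr_ext (W.isInternal X)
    intro j a ha
    rw [h j a ha, key j a ha]
  · rintro rfl
    exact key

theorem signStd_iff : SignStd W X ↔
    NK.evenProj (par (W.isInternal X)) ∈ Submodule.span W.K (rops W X) := by
  constructor
  · rintro ⟨z, hz, h⟩
    rw [isEvenProj_iff_eq] at h
    rw [← h]
    exact Submodule.subset_span (rop_cyc hz)
  · intro h
    obtain ⟨m, hm, hA⟩ := exists_int (evenRing_rops W X) h
    have h2 := rop_opAlg.smul ((m : ℚ)⁻¹) hA
    have hm' : (m : W.K) ≠ 0 := by exact_mod_cast hm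
    rw [smul_smul] at h2
    push_cast at h2
    rw [inv_mul_cancel₀ hm', one_smul] at h2
    obtain ⟨z, hz, hz'⟩ := exists_of_rop (p := X.dim) (by simp) h2
    exact ⟨z, hz, (isEvenProj_iff_eq W X).2 hz'⟩

theorem finrank_evenPart_par :
    Module.finrank W.K (evenPart (par (W.isInternal X))) = evenBetti W X := by
  have h1 := trace_evenProj (par_mul_par (W.isInternal X))
  have h2 : NK.evenProj (par (W.isInternal X)) =
      scal (W.isInternal X) (fun i => if Even i then 1 else 0) := by
    symm
    rw [← isEvenProj_iff_eq]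
    intro j a ha
    rw [scal_apply _ _ ha]
    split_ifs
    · rw [one_smul]
    · rw [zero_smul]
  rw [h2, trace_scal (W.isInternal X) W_hbd] at h1
  have h3 : ((evenBetti W X : ℕ) : W.K) = (Module.finrank W.K (evenPart (par (W.isInternal X)))) := by
    rw [← h1, evenBetti]
    push_cast
    refine Finset.sum_congr rfl fun i _ => ?_
    split_ifs <;> simp
  exact_mod_cast h3.symm

theorem finrank_oddPart_par :
    Module.finrank W.K (oddPart (par (W.isInternal X))) = oddBetti W X := by
  have h1 := finrank_parts (par_mul_par (W.isInternal X))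
  rw [finrank_evenPart_par, finrank_eq_sum (W.isInternal X) W_hbd] at h1
  have h2 : evenBetti W X + oddBetti W X =
      ∑ i ∈ Finset.range (2 * X.dim + 1), Module.finrank W.K (W.gr X i) := by
    rw [evenBetti, oddBetti, ← Finset.sum_add_distrib]
    refine Finset.sum_congr rfl fun i _ => ?_
    split_ifs <;> simp
  omega

/-- **The sign conjecture for two theories.** -/
theorem sign_independence (h : SignStd W X) :
    evenBetti W X ≤ evenBetti W' X ∧ oddBetti W X ≤ oddBetti W' X ∧
      (SignStd W' X ↔ evenBetti W X = evenBetti W' X) := by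
  rw [signStd_iff, ← range_pr1 W W' X] at h
  have key := independence (sameTraces_weil W W' X) h
  rw [range_pr2, ← signStd_iff, finrank_evenPart_par, finrank_evenPart_par, finrank_oddPart_par,
    finrank_oddPart_par] at key
  exact key

end

end Pool.Agent.X279.NK
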