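import Pool.Agent.X279.NK.WeilNum

/-!
# The even Künneth projector and the powers of one correspondence
-/

set_option autoImplicit false
set_option linter.unusedSectionVars false

universe u v

namespace Pool.Agent.X279.NK

open Pool.Agent.H914 Pool.Agent.H447 Pool.Agent.X310 VarClass Obj WeilCohomology

variable {k : Type u} [Field k] {𝒱 : VarClass k} {ops : CycleOps 𝒱}

section

variable {W : WeilCohomology.{u, v} ops} {X : 𝒱.Obj}

theorem cycPow_spec {u : (X.prod X).Cycles} (hu : (X.prod X).IsCyc X.dim u) (m : ℕ) :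
    (X.prod X).IsCyc X.dim (cycPow ops u m) ∧
      W.corr (W.cl _ (cycPow ops u m)) =
        (W.corr (W.cl _ u) : Module.End W.K (W.H X)) ^ (m + 1) := by
  induction m with
  | zero => exact ⟨hu, (pow_one _).symm⟩
  | succ m ih =>
    refine ⟨compCyc_mem ih.1 hu rfl, ?_⟩
    rw [cycPow, corr_compCyc W hu, ih.2, pow_succ' _ (m + 1)]
    rfl

theorem cycOps_eq : cycOps W X = rops W X := by
  ext y
  constructor
  · rintro ⟨z, hz, rfl⟩
    exact rop_cyc hz
  · intro h
    exact exists_of_rop (p := X.dim) (by simp) h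

theorem evenH_eq : evenH W X = evenPart (par (W.isInternal X)) := by
  have hle : evenH W X ≤ evenPart (par (W.isInternal X)) := by
    refine iSup_le fun i => iSup_le fun hi => ?_
    intro a ha
    rw [mem_evenPart, par, scal_apply _ _ ha, hi.neg_one_pow, one_smul]
  have hle' : oddH W X ≤ oddPart (par (W.isInternal X)) := by
    refine iSup_le fun i => iSup_le fun hi => ?_
    intro a ha
    rw [mem_oddPart, par, scal_apply _ _ ha, (Nat.not_even_iff_odd.1 hi).neg_one_pow, neg_smul,
      one_smul]
  have htop : evenH W X ⊔ oddH W X = ⊤ := by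
    rw [eq_top_iff, ← (W.isInternal X).submodule_iSup_eq_top]
    refine iSup_le fun i => ?_
    by_cases hi : Even i
    · exact le_trans (le_iSup_of_le (f := fun i => ⨆ (_ : Even i), W.gr X i) i
        (le_iSup_of_le hi le_rfl)) le_sup_left
    · exact le_trans (le_iSup_of_le (f := fun i => ⨆ (_ : ¬ Even i), W.gr X i) i
        (le_iSup_of_le hi le_rfl)) le_sup_right
  apply le_antisymm hle
  intro x hx
  obtain ⟨y, hy, z, hz, hyz⟩ := Submodule.mem_sup.1 (show x ∈ evenH W X ⊔ oddH W X by
    rw [htop]; trivial)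
  have hz0 : z ∈ evenPart (par (W.isInternal X)) := by
    have : z = x - y := by rw [← hyz]; abel
    rw [this]
    exact Submodule.sub_mem _ hx (hle hy)
  have hz1 := Submodule.disjoint_def.1
    (isCompl_parts (par_mul_par (W.isInternal X))).disjoint z hz0 (hle' hz)
  rw [hz1, add_zero] at hyz
  rw [← hyz]
  exact hy

theorem oddH_eq : oddH W X = oddPart (par (W.isInternal X)) := by
  have hle : evenH W X ≤ evenPart (par (W.isInternal X)) := evenH_eq.le
  have hle' : oddH W X ≤ oddPart (par (W.isInternal X)) := by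
    refine iSup_le fun i => iSup_le fun hi => ?_
    intro a ha
    rw [mem_oddPart, par, scal_apply _ _ ha, (Nat.not_even_iff_odd.1 hi).neg_one_pow, neg_smul,
      one_smul]
  have htop : evenH W X ⊔ oddH W X = ⊤ := by
    rw [eq_top_iff, ← (W.isInternal X).submodule_iSup_eq_top]
    refine iSup_le fun i => ?_
    by_cases hi : Even i
    · exact le_trans (le_iSup_of_le (f := fun i => ⨆ (_ : Even i), W.gr X i) i
        (le_iSup_of_le hi le_rfl)) le_sup_left
    · exact le_trans (le_iSup_of_le (f := fun i => ⨆ (_ : ¬ Even i), W.gr X i) i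
        (le_iSup_of_le hi le_rfl)) le_sup_right
  apply le_antisymm hle'
  intro x hx
  obtain ⟨y, hy, z, hz, hyz⟩ := Submodule.mem_sup.1 (show x ∈ evenH W X ⊔ oddH W X by
    rw [htop]; trivial)
  have hz0 : y ∈ oddPart (par (W.isInternal X)) := by
    have : y = x - z := by rw [← hyz]; abel
    rw [this]
    exact Submodule.sub_mem _ hx (hle' hz)
  have hz1 := Submodule.disjoint_def.1
    (isCompl_parts (par_mul_par (W.isInternal X))).disjoint y (hle hy) hz0
  rw [hz1, zero_add] at hyz
  rw [← hyz]
  exact hz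

theorem one_tfae : List.TFAE [SignStd W X,
    ∃ T ∈ cycOps W X, CoprimeOn (evenH W X) (oddH W X) T,
    CoprimeCombination (evenH W X) (oddH W X) (cycOps W X),
    ∃ u, (X.prod X).IsCyc X.dim u ∧ PowerNumbers W X u] := by
  rw [evenH_eq, oddH_eq, cycOps_eq]
  have hring := evenRing_rops W X
  have hfin : Module.finrank W.K (W.H X) = evenBetti W X + oddBetti W X := by
    rw [← finrank_evenPart_par, ← finrank_oddPart_par, finrank_parts hring.sq]
  tfae_have 1 → 2 := by
    intro h
    obtain ⟨m, hm, hA⟩ := exists_int hring ((signStd_iff W X).1 h)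
    exact coprime_of_int hring hm hA
  tfae_have 2 → 3 := by
    rintro ⟨u, hu, h⟩
    exact ⟨_, Submodule.subset_span hu, h⟩
  tfae_have 3 → 1 := by
    rintro ⟨T, hT, h⟩
    exact (signStd_iff W X).2 (span_of_coprime hring hT h)
  tfae_have 1 → 4 := by
    rintro ⟨z, hz, h⟩
    rw [isEvenProj_iff_eq] at h
    have h0 : ROp W X 0 (par (W.isInternal X)) := by
      rw [← evenProj_sub (P := par (W.isInternal X)), ← h]
      exact rop_opAlg.sub (rop_cyc hz) (rop_opAlg.sub rop_opAlg.one (rop_cyc hz))
    obtain ⟨u, hu, hu'⟩ := exists_of_rop (p := X.dim) (by simp) h0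
    refine ⟨u, hu, fun m _ => ?_⟩
    obtain ⟨h1, h2⟩ := cycPow_spec (W := W) hu m
    have h3 := trace_cyc (W := W) h1
    rw [h2, hu', ← pow_succ, trace_parity_pow hring.sq, finrank_evenPart_par,
      finrank_oddPart_par] at h3
    have h4 : (((evenBetti W X : ℚ) - (-1) ^ (m + 1) * oddBetti W X : ℚ) : W.K) =
        (diagNumber ops X (cycPow ops u m) : W.K) := by
      rw [← h3]
      push_cast
      ring
    exact_mod_cast h4.symm
  tfae_have 4 → 1 := by
    rintro ⟨u, hu, h⟩
    apply (signStd_iff W X).2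
    apply span_of_powerTraces hring
    refine ⟨_, Submodule.subset_span (rop_cyc hu), fun k hk1 hk2 => ?_⟩
    obtain ⟨m, rfl⟩ := Nat.exists_eq_add_of_le' hk1
    obtain ⟨h1, h2⟩ := cycPow_spec (W := W) hu m
    rw [← h2, trace_cyc h1, h m (by omega), finrank_evenPart_par, finrank_oddPart_par]
    push_cast
    ring
  tfae_finish

end

end Pool.Agent.X279.NK
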