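import Pool.Agent.X279.NK.Weil
import Pool.Agent.H447R3.NcB

/-!
# The even Künneth projector and projectors modulo numerical equivalence
-/

set_option autoImplicit false
set_option linter.unusedSectionVars false

universe u v

namespace Pool.Agent.X279.NK

open Pool.Agent.H914 Pool.Agent.H447 Pool.Agent.X310 VarClass Obj WeilCohomology

variable {k : Type u} [Field k] {𝒱 : VarClass k} {ops : CycleOps 𝒱}

theorem neg_aux {K V : Type*} [Field K] [AddCommGroup V] [Module K V] (T b Q : Module.End K V) :
    LinearMap.trace K V ((T * T - T) * b * Q) = -LinearMap.trace K V (Q * ((T - T * T) * b)) := by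
  rw [LinearMap.trace_mul_comm, ← map_neg, ← mul_neg, ← neg_mul, neg_sub]

section

variable {W : WeilCohomology.{u, v} ops} {X : 𝒱.Obj}

theorem trace_cyc {z : (X.prod X).Cycles} (hz : (X.prod X).IsCyc X.dim z) :
    LinearMap.trace W.K (W.H X) (W.corr (W.cl _ z) * par (W.isInternal X)) =
      (diagNumber ops X z : W.K) := by
  rw [LinearMap.trace_mul_comm, trace_par_corr, ← cl_pull, tr_cl _ (ops.pull_mem _ hz)]
  rfl

theorem numIdempotent_of {e : (X.prod X).Cycles} (he : IsNumProjector ops X e) :
    NumIdempotent (par (W.isInternal X)) (rops W X) (W.corr (W.cl _ e)) := by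
  refine ⟨Submodule.subset_span (rop_cyc he.1), ?_⟩
  have h := he.2
  rw [numEquiv_iff (W := W) (compCyc_mem he.1 he.1 rfl) he.1, corr_compCyc W he.1] at h
  intro b hb
  have h1 := h.2 b (by rw [neg_zero]; exact hb)
  rw [neg_aux]
  exact neg_eq_zero.2 h1

theorem isNumProjector_of {e : (X.prod X).Cycles} (he : (X.prod X).IsCyc X.dim e)
    (h : W.corr (W.cl _ e) * W.corr (W.cl _ e) = W.corr (W.cl _ e)) :
    IsNumProjector ops X e := by
  refine ⟨he, ?_⟩
  rw [numEquiv_iff (W := W) (compCyc_mem he he rfl) he, corr_compCyc W he]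
  have h2 : W.corr (W.cl _ e) - W.corr (W.cl _ e) ∘ₗ W.corr (W.cl _ e) = 0 := by
    rw [sub_eq_zero]
    exact h.symm
  rw [h2]
  exact NumR.zero rop_opAlg 0

theorem num_bounds {e : (X.prod X).Cycles} (he : IsNumProjector ops X e) :
    ∃ n : ℤ, diagNumber ops X e = n ∧ -(oddBetti W X : ℤ) ≤ n ∧ n ≤ evenBetti W X ∧
      (n = evenBetti W X ∨ n = -(oddBetti W X : ℤ) → SignStd W X) := by
  obtain ⟨n, h1, h2, h3, h4⟩ := idem_bounds (evenRing_rops W X) (numIdempotent_of (W := W) he)
  rw [trace_cyc he.1] at h1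
  rw [finrank_evenPart_par, finrank_oddPart_par, ← signStd_iff] at h4
  rw [finrank_oddPart_par] at h2
  rw [finrank_evenPart_par] at h3
  exact ⟨n, by exact_mod_cast h1, h2, h3, h4⟩

theorem num_tfae : List.TFAE [SignStd W X,
    ∃ e, IsNumProjector ops X e ∧ diagNumber ops X e = evenBetti W X,
    ∃ e, IsNumProjector ops X e ∧ diagNumber ops X e = -(oddBetti W X : ℚ)] := by
  have hring := evenRing_rops W X
  have hEmem : SignStd W X → ROp W X 0 (NK.evenProj (par (W.isInternal X))) := by
    rintro ⟨z, hz, h⟩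
    rw [isEvenProj_iff_eq] at h
    rw [← h]
    exact rop_cyc hz
  tfae_have 1 → 2 := by
    intro h
    obtain ⟨z, hz, hz'⟩ := exists_of_rop (p := X.dim) (by simp) (hEmem h)
    refine ⟨z, isNumProjector_of (W := W) hz (by rw [hz']; exact evenProj_idem hring.sq), ?_⟩
    have h1 := trace_cyc (W := W) hz
    rw [hz', str_evenProj hring, finrank_evenPart_par] at h1
    exact_mod_cast h1.symm
  tfae_have 2 → 1 := by
    rintro ⟨e, he, hn⟩
    obtain ⟨n, h1, h2, h3, h4⟩ := num_bounds (W := W) he
    apply h4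
    left
    rw [h1] at hn
    exact_mod_cast hn
  tfae_have 1 → 3 := by
    intro h
    have h0 : ROp W X 0 (NK.oddProj (par (W.isInternal X))) := by
      rw [← one_sub_evenProj]
      exact rop_opAlg.sub rop_opAlg.one (hEmem h)
    obtain ⟨z, hz, hz'⟩ := exists_of_rop (p := X.dim) (by simp) h0
    refine ⟨z, isNumProjector_of (W := W) hz (by rw [hz']; exact oddProj_idem hring.sq), ?_⟩
    have h1 := trace_cyc (W := W) hz
    rw [hz', ← one_sub_evenProj, sub_mul, map_sub, str_one hring, str_evenProj hring,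
      finrank_evenPart_par, finrank_oddPart_par] at h1
    have h2 : ((-(oddBetti W X : ℚ) : ℚ) : W.K) = (diagNumber ops X z : W.K) := by
      rw [← h1]
      push_cast
      ring
    exact_mod_cast h2.symm
  tfae_have 3 → 1 := by
    rintro ⟨e, he, hn⟩
    obtain ⟨n, h1, h2, h3, h4⟩ := num_bounds (W := W) he
    apply h4
    right
    rw [h1] at hn
    exact_mod_cast hn
  tfae_finish

end

end Pool.Agent.X279.NK
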